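import Pool.Agent.H29.EU.Indep

/-!
A general independence statement: if the probability of an event does not depend on the weights of
the groups of a family of disjoint finite sets of edges (with signs), then at `p = 1/2` the event is
independent of the signed numbers of the open edges of the groups.
-/

set_option autoImplicit false

namespace Pool.Agent.H29.LE

open Pool.Agent.H988R2.Perc Finset MeasureTheory ProbabilityTheory unitInterval Filter Topology
open Q292.Env
open scoped ENNReal

variable {κ : Type*} [DecidableEq κ]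

/-- the signed value of an edge -/
def sv1 (s : Edge → Bool) (ω : Conf) (e : Edge) : ℤ :=
  if ω e = true then (if s e = true then 1 else -1) else 0

/-- the signed number of the open edges of a group -/
def DG (T : κ → Finset Edge) (s : Edge → Bool) (ω : Conf) (i : κ) : ℤ := ∑ e ∈ T i, sv1 s ω e

/-- the number of the edges whose state is their sign -/
def NG (T : κ → Finset Edge) (s : Edge → Bool) (ω : Conf) (i : κ) : ℕ :=
  ((T i).filter (fun e => ω e = s e)).card

theorem NG_DG (T : κ → Finset Edge) (s : Edge → Bool) (ω : Conf) (i : κ) :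
    (NG T s ω i : ℤ) = DG T s ω i + (((T i).filter (fun e => s e = false)).card : ℤ) := by
  unfold NG DG
  rw [Finset.card_filter, Finset.card_filter]
  push_cast
  rw [← Finset.sum_add_distrib]
  refine Finset.sum_congr rfl fun e _ => ?_
  unfold sv1
  cases ω e <;> cases s e <;> simp

theorem NG_le (T : κ → Finset Edge) (s : Edge → Bool) (ω : Conf) (i : κ) :
    NG T s ω i ≤ (T i).card := Finset.card_filter_le _ _

open Classical in
/-- the environment with the weights `x` in the groups of `S`, and `1/2` elsewhere -/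
noncomputable def pX (T : κ → Finset Edge) (s : Edge → Bool) (S : Finset κ) (x : κ → I)
    (e : Edge) : I :=
  if h : ∃ i ∈ S, e ∈ T i then (if s e = true then x h.choose else σ (x h.choose)) else hlf

theorem pX_mem {T : κ → Finset Edge} (hT : ∀ i j, i ≠ j → Disjoint (T i) (T j)) (s : Edge → Bool)
    (S : Finset κ) (x : κ → I) {e : Edge} {i : κ} (hi : i ∈ S) (he : e ∈ T i) :
    pX T s S x e = if s e = true then x i else σ (x i) := by
  classical
  have h : ∃ i ∈ S, e ∈ T i := ⟨i, hi, he⟩
  have h2 : h.choose = i := by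
    by_contra hne
    exact Finset.disjoint_left.1 (hT _ _ hne) h.choose_spec.2 he
  unfold pX
  rw [dif_pos h, h2]

theorem pX_not {T : κ → Finset Edge} (s : Edge → Bool) (S : Finset κ) (x : κ → I) {e : Edge}
    (h : ¬ ∃ i ∈ S, e ∈ T i) : pX T s S x e = hlf := by
  unfold pX
  rw [dif_neg h]

theorem percP_densX (T : κ → Finset Edge) (s : Edge → Bool) (S : Finset κ) (x : κ → I) :
    percP (pX T s S x) = perc.withDensity
      (fun ω => ∏ e ∈ S.biUnion T, ENNReal.ofReal (fb (pX T s S x e) (ω e))) := by
  rw [perc_eq_percP]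
  unfold percP
  refine infinitePi_withDensity _ _ (S.biUnion T)
    (fun e c => ENNReal.ofReal (fb (pX T s S x e) c)) ?_ ?_
  · intro e _
    exact ber_density _
  · intro e he
    rw [pX_not]
    rintro ⟨i, hi, h⟩
    exact he (Finset.mem_biUnion.2 ⟨i, hi, h⟩)

theorem densX_eq {T : κ → Finset Edge} (hT : ∀ i j, i ≠ j → Disjoint (T i) (T j)) (s : Edge → Bool)
    (S : Finset κ) (x : κ → I) (ω : Conf) :
    ∏ e ∈ S.biUnion T, ENNReal.ofReal (fb (pX T s S x e) (ω e)) =
      ENNReal.ofReal (∏ i ∈ S, ((2 * (x i : ℝ)) ^ (NG T s ω i) *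
        (2 * (1 - (x i : ℝ))) ^ ((T i).card - NG T s ω i))) := by
  classical
  rw [← ENNReal.ofReal_prod_of_nonneg (fun e _ => fb_nonneg (pX T s S x e).2 _)]
  congr 1
  rw [Finset.prod_biUnion]
  · refine Finset.prod_congr rfl fun i hi => ?_
    have h1 : ∀ e ∈ T i, fb (pX T s S x e) (ω e) =
        if ω e = s e then 2 * (x i : ℝ) else 2 * (1 - (x i : ℝ)) := by
      intro e he
      rw [pX_mem hT s S x hi he]
      unfold fb
      cases ω e <;> cases s e <;> simp [symm_val]
    rw [Finset.prod_congr rfl h1, Finset.prod_ite, Finset.prod_const, Finset.prod_const]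
    congr 2
    have := Finset.card_filter_add_card_filter_not (s := T i) (fun e => ω e = s e)
    unfold NG
    omega
  · intro i hi j hj hne
    exact hT i j hne

/-- the event that the numbers of the groups of `S` are given by `v` -/
def EX (T : κ → Finset Edge) (s : Edge → Bool) (S : Finset κ) (v : κ → ℕ) : Set Conf :=
  {ω | ∀ i ∈ S, NG T s ω i = v i}

theorem measurable_NG (T : κ → Finset Edge) (s : Edge → Bool) (i : κ) :
    Measurable (fun ω : Conf => NG T s ω i) := by
  have h : (fun ω : Conf => NG T s ω i) =
      fun ω => ∑ e ∈ T i, (if ω e = s e then 1 else 0) := by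
    funext ω
    unfold NG
    rw [Finset.card_filter]
  rw [h]
  refine Finset.measurable_sum _ fun e _ => ?_
  have h2 : (fun ω : Conf => if ω e = s e then 1 else 0) =
      (fun c : Bool => if c = s e then (1:ℕ) else 0) ∘ (fun ω : Conf => ω e) := rfl
  rw [h2]
  exact (measurable_of_countable _).comp (measurable_pi_apply _)

theorem measurable_DG (T : κ → Finset Edge) (s : Edge → Bool) (i : κ) :
    Measurable (fun ω : Conf => DG T s ω i) := by
  unfold DG
  refine Finset.measurable_sum _ fun e _ => ?_
  have h2 : (fun ω : Conf => sv1 s ω e) =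
      (fun c : Bool => if c = true then (if s e = true then (1:ℤ) else -1) else 0) ∘
        (fun ω : Conf => ω e) := rfl
  rw [h2]
  exact (measurable_of_countable _).comp (measurable_pi_apply _)

theorem measurableSet_EX (T : κ → Finset Edge) (s : Edge → Bool) (S : Finset κ) (v : κ → ℕ) :
    MeasurableSet (EX T s S v) := by
  have : EX T s S v = ⋂ i ∈ S, (fun ω : Conf => NG T s ω i) ⁻¹' {v i} := by
    ext ω
    simp [EX]
  rw [this]
  exact Finset.measurableSet_biInter _ fun i _ => measurable_NG T s i (measurableSet_singleton _)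

/-- the weight of the values `v` -/
noncomputable def wX (T : κ → Finset Edge) (S : Finset κ) (x : κ → I) (v : κ → ℕ) : ℝ :=
  ∏ i ∈ S, ((2 * (x i : ℝ)) ^ (v i) * (2 * (1 - (x i : ℝ))) ^ ((T i).card - v i))

theorem percP_EX {T : κ → Finset Edge} (hT : ∀ i j, i ≠ j → Disjoint (T i) (T j)) (s : Edge → Bool)
    (S : Finset κ) (x : κ → I) (v : κ → ℕ) {A : Set Conf} (hA : MeasurableSet A) :
    (percP (pX T s S x)).real (A ∩ EX T s S v) = wX T S x v * perc.real (A ∩ EX T s S v) := by
  have hm := hA.inter (measurableSet_EX T s S v)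
  have hw : 0 ≤ wX T S x v := by
    refine Finset.prod_nonneg fun i _ => mul_nonneg (pow_nonneg ?_ _) (pow_nonneg ?_ _)
    · linarith [(x i).2.1]
    · linarith [(x i).2.2]
  rw [measureReal_def, percP_densX, withDensity_apply _ hm]
  have h1 : ∫⁻ ω in A ∩ EX T s S v, ∏ e ∈ S.biUnion T, ENNReal.ofReal (fb (pX T s S x e) (ω e)) ∂perc
      = ∫⁻ _ in A ∩ EX T s S v, ENNReal.ofReal (wX T S x v) ∂perc := by
    refine setLIntegral_congr_fun hm fun ω hω => ?_
    rw [densX_eq hT s S x ω]
    congr 1
    refine Finset.prod_congr rfl fun i hi => ?_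
    rw [hω.2 i hi]
  rw [h1, setLIntegral_const, ENNReal.toReal_mul, ENNReal.toReal_ofReal hw, measureReal_def]

/-- the possible values -/
noncomputable def VX (T : κ → Finset Edge) (S : Finset κ) : Finset (κ →₀ ℕ) :=
  S.finsupp fun i => Finset.range ((T i).card + 1)

theorem percP_sumX (T : κ → Finset Edge) (s : Edge → Bool) (S : Finset κ) (p : Edge → I)
    {A : Set Conf} (hA : MeasurableSet A) :
    (percP p).real A = ∑ v ∈ VX T S, (percP p).real (A ∩ EX T s S v) := by
  rw [← measureReal_biUnion_finset]
  · congr 1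
    ext ω
    simp only [Set.mem_iUnion, Set.mem_inter_iff, exists_prop]
    constructor
    · intro h
      refine ⟨Finsupp.indicator S (fun i _ => NG T s ω i), ?_, h, ?_⟩
      · unfold VX
        rw [Finset.mem_finsupp_iff]
        refine ⟨Finsupp.support_indicator_subset _ _, fun i hi => ?_⟩
        rw [Finsupp.indicator_of_mem hi, Finset.mem_range]
        exact Nat.lt_succ_of_le (NG_le T s ω i)
      · intro i hi
        rw [Finsupp.indicator_of_mem hi]
    · rintro ⟨v, _, h, _⟩
      exact h
  · intro v hv v' hv' hne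
    rw [Function.onFun, Set.disjoint_left]
    rintro ω ⟨_, h1⟩ ⟨_, h2⟩
    apply hne
    have hv := (Finset.mem_finsupp_iff.1 (Finset.mem_coe.1 hv)).1
    have hv' := (Finset.mem_finsupp_iff.1 (Finset.mem_coe.1 hv')).1
    ext i
    by_cases hi : i ∈ S
    · rw [← h1 i hi, ← h2 i hi]
    · rw [Finsupp.notMem_support_iff.1 (fun h => hi (hv h)),
        Finsupp.notMem_support_iff.1 (fun h => hi (hv' h))]
  · intro v _
    exact hA.inter (measurableSet_EX T s S v)

theorem wX_odds (T : κ → Finset Edge) (S : Finset κ) (t : κ → ℝ) (ht : ∀ i, 0 < t i)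
    (v : κ →₀ ℕ) (hv : v ∈ VX T S) :
    wX T S (fun i => odds (t i) (ht i)) v =
      (∏ i ∈ S, (2 / (1 + t i)) ^ (T i).card) * ∏ i ∈ S, t i ^ (v i) := by
  unfold wX
  rw [← Finset.prod_mul_distrib]
  refine Finset.prod_congr rfl fun i hi => ?_
  have hv := (Finset.mem_finsupp_iff.1 hv).2 i hi
  rw [Finset.mem_range] at hv
  have h1 : (2 * ((odds (t i) (ht i) : I) : ℝ)) = 2 / (1 + t i) * t i := by
    unfold odds
    simp only
    ring
  have h2 : (2 * (1 - ((odds (t i) (ht i) : I) : ℝ))) = 2 / (1 + t i) := by
    have := ht i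
    unfold odds
    simp only
    field_simp
    ring
  rw [h1, h2, mul_pow, mul_right_comm, ← pow_add]
  congr 2
  omega

/-- the probability of `A` does not depend on the weights of finitely many groups -/
def InvX (T : κ → Finset Edge) (s : Edge → Bool) (A : Set Conf) : Prop :=
  ∀ (S : Finset κ) (x : κ → I), (percP (pX T s S x)).real A = perc.real A

theorem indepX {T : κ → Finset Edge} (hT : ∀ i j, i ≠ j → Disjoint (T i) (T j)) (s : Edge → Bool)
    {A : Set Conf} (hA : MeasurableSet A) (hI : InvX T s A)
    (S : Finset κ) (v : κ →₀ ℕ) (hv : v ∈ VX T S) :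
    perc.real (A ∩ EX T s S v) = perc.real A * perc.real (EX T s S v) := by
  classical
  set c : (κ →₀ ℕ) → ℝ := fun v => perc.real (A ∩ EX T s S v) -
    perc.real A * perc.real (EX T s S v) with hc
  set P : MvPolynomial κ ℝ := ∑ v ∈ VX T S, MvPolynomial.monomial v (c v) with hP
  have hP0 : P = 0 := by
    refine MvPolynomial.funext_set (fun _ => Set.Ioi (0:ℝ)) (fun _ => Set.Ioi_infinite 0) ?_
    intro t ht
    have ht' : ∀ i, 0 < t i := fun i => ht i (Set.mem_univ _)
    rw [hP, map_sum, map_zero]
    simp only [MvPolynomial.eval_monomial]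
    set x : κ → I := fun i => odds (t i) (ht' i) with hx
    have s1 := percP_sumX T s S (pX T s S x) hA
    have s2 := percP_sumX T s S (pX T s S x) MeasurableSet.univ
    rw [hI S x] at s1
    rw [probReal_univ] at s2
    simp only [Set.univ_inter] at s2
    have s3 : ∀ v ∈ VX T S, (percP (pX T s S x)).real (A ∩ EX T s S v) =
        (∏ i ∈ S, (2 / (1 + t i)) ^ (T i).card) * (∏ i ∈ S, t i ^ (v i)) *
          perc.real (A ∩ EX T s S v) := by
      intro v hv
      rw [percP_EX hT s S x v hA, hx, wX_odds T S t ht' v hv]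
    have s4 : ∀ v ∈ VX T S, (percP (pX T s S x)).real (EX T s S v) =
        (∏ i ∈ S, (2 / (1 + t i)) ^ (T i).card) * (∏ i ∈ S, t i ^ (v i)) *
          perc.real (EX T s S v) := by
      intro v hv
      have := percP_EX hT s S x v MeasurableSet.univ
      simp only [Set.univ_inter] at this
      rw [this, hx, wX_odds T S t ht' v hv]
    rw [Finset.sum_congr rfl s3] at s1
    rw [Finset.sum_congr rfl s4] at s2
    have hC : (∏ i ∈ S, (2 / (1 + t i)) ^ (T i).card) ≠ 0 := by
      refine Finset.prod_ne_zero_iff.2 fun i _ => pow_ne_zero _ ?_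
      have := ht' i
      positivity
    have s5 : (∏ i ∈ S, (2 / (1 + t i)) ^ (T i).card) *
        ∑ v ∈ VX T S, c v * ∏ i ∈ S, t i ^ (v i) = 0 := by
      have e : ∀ v : κ →₀ ℕ, c v * ∏ i ∈ S, t i ^ (v i) =
          (∏ i ∈ S, t i ^ (v i)) * perc.real (A ∩ EX T s S v) -
            perc.real A * ((∏ i ∈ S, t i ^ (v i)) * perc.real (EX T s S v)) := by
        intro v
        rw [hc]
        ring
      simp_rw [e]
      have s1' : (∏ i ∈ S, (2 / (1 + t i)) ^ (T i).card) *
          ∑ v ∈ VX T S, (∏ i ∈ S, t i ^ (v i)) * perc.real (A ∩ EX T s S v) =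
          perc.real A := by
        rw [Finset.mul_sum]
        simp only [← mul_assoc]
        exact s1.symm
      have s2' : (∏ i ∈ S, (2 / (1 + t i)) ^ (T i).card) *
          ∑ v ∈ VX T S, (∏ i ∈ S, t i ^ (v i)) * perc.real (EX T s S v) = 1 := by
        rw [Finset.mul_sum]
        simp only [← mul_assoc]
        exact s2.symm
      rw [Finset.sum_sub_distrib, ← Finset.mul_sum, mul_sub, s1', mul_left_comm, s2']
      ring
    have s6 := (mul_eq_zero.1 s5).resolve_left hC
    rw [← s6]
    refine Finset.sum_congr rfl fun v hv => ?_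
    congr 1
    have hsub := (Finset.mem_finsupp_iff.1 hv).1
    rw [Finsupp.prod_of_support_subset v hsub _ (fun _ _ => pow_zero _)]
  have h1 : MvPolynomial.coeff v P = c v := by
    rw [hP, MvPolynomial.coeff_sum]
    simp only [MvPolynomial.coeff_monomial]
    rw [Finset.sum_ite_eq' (VX T S) v c, if_pos hv]
  rw [hP0, MvPolynomial.coeff_zero] at h1
  have : perc.real (A ∩ EX T s S v) - perc.real A * perc.real (EX T s S v) = 0 := h1.symm
  linarith

/-- independence, arbitrary values -/
theorem indepX' {T : κ → Finset Edge} (hT : ∀ i j, i ≠ j → Disjoint (T i) (T j)) (s : Edge → Bool)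
    {A : Set Conf} (hA : MeasurableSet A) (hI : InvX T s A) (S : Finset κ) (v : κ → ℕ) :
    perc.real (A ∩ EX T s S v) = perc.real A * perc.real (EX T s S v) := by
  classical
  by_cases hv : ∀ i ∈ S, v i ≤ (T i).card
  · have h := indepX hT s hA hI S (Finsupp.indicator S (fun i _ => v i)) (by
      unfold VX
      rw [Finset.mem_finsupp_iff]
      refine ⟨Finsupp.support_indicator_subset _ _, fun i hi => ?_⟩
      rw [Finsupp.indicator_of_mem hi, Finset.mem_range]
      exact Nat.lt_succ_of_le (hv i hi))
    have e : EX T s S (Finsupp.indicator S (fun i _ => v i)) = EX T s S v := by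
      ext ω
      unfold EX
      simp only [Set.mem_ofPred_eq]
      constructor
      · intro h i hi
        rw [h i hi, Finsupp.indicator_of_mem hi]
      · intro h i hi
        rw [h i hi, Finsupp.indicator_of_mem hi]
    rwa [e] at h
  · have e : EX T s S v = ∅ := by
      rw [Set.eq_empty_iff_forall_notMem]
      intro ω hω
      apply hv
      intro i hi
      rw [← hω i hi]
      exact NG_le T s ω i
    rw [e]
    simp

theorem indepX_fin {T : κ → Finset Edge} (hT : ∀ i j, i ≠ j → Disjoint (T i) (T j))
    (s : Edge → Bool) {A : Set Conf} (hA : MeasurableSet A) (hI : InvX T s A) (S : Finset κ)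
    (d : κ → ℤ) :
    perc.real (A ∩ {ω | ∀ i ∈ S, DG T s ω i = d i}) =
      perc.real A * perc.real {ω | ∀ i ∈ S, DG T s ω i = d i} := by
  classical
  set c : κ → ℤ := fun i => (((T i).filter (fun e => s e = false)).card : ℤ) with hc
  by_cases hneg : ∀ i ∈ S, 0 ≤ d i + c i
  · have hE : {ω | ∀ i ∈ S, DG T s ω i = d i} = EX T s S (fun i => (d i + c i).toNat) := by
      ext ω
      unfold EX
      simp only [Set.mem_ofPred_eq]
      constructor
      · intro h i hi
        have h1 := NG_DG T s ω i
        have h2 := h i hi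
        have h3 := hneg i hi
        simp only [hc] at h3 ⊢
        omega
      · intro h i hi
        have h1 := NG_DG T s ω i
        have h2 := h i hi
        have h3 := hneg i hi
        simp only [hc] at h2 h3
        omega
    rw [hE]
    exact indepX' hT s hA hI S _
  · have hE : {ω | ∀ i ∈ S, DG T s ω i = d i} = ∅ := by
      rw [Set.eq_empty_iff_forall_notMem]
      intro ω hω
      apply hneg
      intro i hi
      have h1 := NG_DG T s ω i
      have h2 : DG T s ω i = d i := hω i hi
      simp only [hc]
      omega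
    rw [hE]
    simp

/-- **independence of the whole family** -/
theorem indepX_all {T : κ → Finset Edge} (hT : ∀ i j, i ≠ j → Disjoint (T i) (T j))
    (s : Edge → Bool) {A : Set Conf} (hA : MeasurableSet A) (hI : InvX T s A)
    (B : Set (κ → ℤ)) (hB : MeasurableSet B) :
    perc.real (A ∩ {ω | (fun i => DG T s ω i) ∈ B}) =
      perc.real A * perc.real {ω | (fun i => DG T s ω i) ∈ B} := by
  classical
  set C : Set (Set Conf) := {E | ∃ (S : Finset κ) (d : κ → ℤ),
    E = {ω | ∀ i ∈ S, DG T s ω i = d i}} with hC
  have hmC : ∀ E ∈ C, MeasurableSet E := by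
    rintro E ⟨S, d, rfl⟩
    have : {ω | ∀ i ∈ S, DG T s ω i = d i} = ⋂ i ∈ S, (fun ω : Conf => DG T s ω i) ⁻¹' {d i} := by
      ext ω; simp
    rw [this]
    exact Finset.measurableSet_biInter _ fun i _ =>
      measurable_DG T s i (measurableSet_singleton _)
  have hpi : IsPiSystem C := by
    rintro E ⟨S, d, rfl⟩ E' ⟨S', d', rfl⟩ ⟨ω0, h1, h2⟩
    refine ⟨S ∪ S', fun i => DG T s ω0 i, ?_⟩
    ext ω
    simp only [Set.mem_inter_iff, Set.mem_ofPred_eq, Finset.mem_union] at h1 h2 ⊢
    constructor
    · rintro ⟨g1, g2⟩ i (hi | hi)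
      · rw [g1 i hi, h1 i hi]
      · rw [g2 i hi, h2 i hi]
    · intro g
      exact ⟨fun i hi => by rw [g i (Or.inl hi), h1 i hi],
        fun i hi => by rw [g i (Or.inr hi), h2 i hi]⟩
  have hyp : IndepSets {A} C perc := by
    rw [IndepSets_iff]
    rintro t1 t2 h1 ⟨S, d, rfl⟩
    rw [Set.mem_singleton_iff] at h1
    subst h1
    have h := indepX_fin hT s hA hI S d
    have e1 : ∀ E : Set Conf, perc E = ENNReal.ofReal (perc.real E) := fun E => by
      rw [measureReal_def, ENNReal.ofReal_toReal (measure_ne_top _ _)]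
    rw [e1, h, e1 t1, e1 {ω | ∀ i ∈ S, DG T s ω i = d i},
      ENNReal.ofReal_mul measureReal_nonneg]
  have hind := IndepSets.indep' (μ := perc) (by
    intro E hE
    rw [Set.mem_singleton_iff] at hE
    rw [hE]
    exact hA) hmC (IsPiSystem.singleton A) hpi hyp
  rw [Indep_iff] at hind
  have hm : MeasurableSet[MeasurableSpace.generateFrom C] {ω | (fun i => DG T s ω i) ∈ B} := by
    have h1 : @Measurable Conf (κ → ℤ) (MeasurableSpace.generateFrom C) _
        (fun ω => fun i => DG T s ω i) := by
      refine @measurable_pi_lambda Conf κ (fun _ => ℤ) (MeasurableSpace.generateFrom C)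
        _ _ fun i => ?_
      refine @measurable_to_countable' ℤ Conf _ _ (MeasurableSpace.generateFrom C) _ fun n => ?_
      refine MeasurableSpace.measurableSet_generateFrom ⟨{i}, fun _ => n, ?_⟩
      ext ω
      simp
    exact h1 hB
  have h := hind A {ω | (fun i => DG T s ω i) ∈ B}
    (MeasurableSpace.measurableSet_generateFrom (Set.mem_singleton _)) hm
  rw [measureReal_def, h, ENNReal.toReal_mul, measureReal_def, measureReal_def]

/-! ### events which depend on the edges of a set only -/

/-- the probability depends only on the parameters of the edges of `F` -/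
theorem percP_congr (F : Set Edge) {A : Set Conf} (hA : MeasurableSet A)
    (hF : ∀ ω ω' : Conf, (∀ e ∈ F, ω e = ω' e) → ω ∈ A → ω' ∈ A) {p p' : Edge → I}
    (hp : ∀ e ∈ F, p e = p' e) : (percP p).real A = (percP p').real A := by
  classical
  set re : Conf → (F → Bool) := fun ω e => ω e with hre
  have hmr : Measurable re := measurable_pi_lambda _ fun e => measurable_pi_apply _
  set ext : (F → Bool) → Conf := fun g e => if h : e ∈ F then g ⟨e, h⟩ else false with hext
  have hme : Measurable ext := by
    refine measurable_pi_lambda _ fun e => ?_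
    by_cases h : e ∈ F
    · have : (fun g : F → Bool => ext g e) = fun g => g ⟨e, h⟩ := by
        funext g; simp [hext, h]
      rw [this]
      exact measurable_pi_apply _
    · have : (fun g : F → Bool => ext g e) = fun _ => false := by
        funext g; simp [hext, h]
      rw [this]
      exact measurable_const
  have hB : MeasurableSet (ext ⁻¹' A) := hA.preimage hme
  have key : ∀ ω : Conf, ∀ e ∈ F, ω e = ext (re ω) e := by
    intro ω e he
    simp [hext, hre, he]
  have hAB : A = re ⁻¹' (ext ⁻¹' A) := by
    ext ω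
    constructor
    · intro h
      exact hF ω _ (key ω) h
    · intro h
      exact hF _ ω (fun e he => (key ω e he).symm) h
  have hr : ∀ p : Edge → I, (percP p).real A =
      (Measure.infinitePi (fun e : F => bernoulliMeasure true false (p e))).real (ext ⁻¹' A) := by
    intro p
    have h1 : (percP p).map re =
        Measure.infinitePi (fun e : F => bernoulliMeasure true false (p e)) := by
      unfold percP
      exact Measure.infinitePi_map_restrict' _
    conv_lhs => rw [hAB]
    rw [← h1, measureReal_def, measureReal_def, Measure.map_apply hmr hB]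
  have h2 : (fun e : F => bernoulliMeasure true false (p e)) =
      fun e : F => bernoulliMeasure true false (p' e) := by
    funext e
    rw [hp e e.2]
  rw [hr, hr, h2]

end Pool.Agent.H29.LE
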