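import Pool.Agent.H29.LE.Scale
import Pool.Agent.H29.LE.Ind

/-!
Independence, at `p = 1/2`, of the event that the tip is joined to one of the two walls and of the
differences of the anisotropies.
-/

set_option autoImplicit false

namespace Pool.Agent.H29.LE

open Pool.Agent.H988R2.Perc hiding X
open Pool.Agent.H981R2.TP
open Pool.Agent.H981R2.TP.PL
open Pool.Agent.H29.TW
open Q292.Env (percP hlf hlf_val symm_val perc_eq_percP)
open MeasureTheory Finset Filter Topology unitInterval ProbabilityTheory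

/-- the edge in the unit square `[j, j+1] × [r, r+1]` of the (column, height) plane -/
def sqE (j r : ℤ) : Edge :=
  if (r + j) % 2 = 0 then ((r + j) / 2, (r - j) / 2, false)
  else ((r + j + 1) / 2, (r - j - 1) / 2, true)

/-- the left column of the unit square of the edge -/
def lc (e : Edge) : ℤ := if e.2.2 = true then e.1 - e.2.1 - 1 else e.1 - e.2.1

/-- the layer of the edge -/
def ly (e : Edge) : ℤ := e.1 + e.2.1

theorem lc_sqE (j r : ℤ) : lc (sqE j r) = j := by
  unfold lc sqE
  split_ifs <;> simp_all <;> omega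

theorem ly_sqE (j r : ℤ) : ly (sqE j r) = r := by
  unfold ly sqE
  split_ifs <;> dsimp only <;> omega

theorem sqE_lc (e : Edge) : sqE (lc e) (ly e) = e := by
  obtain ⟨u, v, c⟩ := e
  unfold lc ly sqE
  cases c
  · simp only [Bool.false_eq_true, if_false]
    rw [if_pos (by omega)]
    refine Prod.ext ?_ (Prod.ext ?_ rfl)
    · dsimp only; omega
    · dsimp only; omega
  · simp only [if_true]
    rw [if_neg (by omega)]
    refine Prod.ext ?_ (Prod.ext ?_ rfl)
    · dsimp only; omega
    · dsimp only; omega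

/-- the columns of the squares of the three parts -/
noncomputable def colsT (p r : ℕ) (l : Fin 3) : Finset ℤ :=
  if l = 0 then Finset.Icc (1 - (p:ℤ)) r else if l = 1 then Finset.Icc (1 - (p:ℤ)) (-1)
    else Finset.Icc 2 (r:ℤ)

/-- the odd layer of the double layer -/
def lowT (l : Fin 3) (n : ℕ) : ℤ := if l = 0 then -(2 * (n:ℤ)) - 1 else 2 * n + 1

/-- the edges of the double layer -/
noncomputable def TT (p r : ℕ) (i : Fin 3 × ℕ) : Finset Edge :=
  (colsT p r i.1 ×ˢ ({lowT i.1 i.2, lowT i.1 i.2 + 1} : Finset ℤ)).image fun t => sqE t.1 t.2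

theorem mem_TT {p r : ℕ} {i : Fin 3 × ℕ} {e : Edge} : e ∈ TT p r i ↔
    lc e ∈ colsT p r i.1 ∧ (ly e = lowT i.1 i.2 ∨ ly e = lowT i.1 i.2 + 1) := by
  unfold TT
  simp only [Finset.mem_image, Finset.mem_product, Finset.mem_insert, Finset.mem_singleton]
  constructor
  · rintro ⟨t, ⟨h1, h2⟩, rfl⟩
    rw [lc_sqE, ly_sqE]
    exact ⟨h1, h2⟩
  · rintro ⟨h1, h2⟩
    exact ⟨(lc e, ly e), ⟨h1, h2⟩, sqE_lc e⟩

theorem TT_disj (p r : ℕ) (i j : Fin 3 × ℕ) (h : i ≠ j) : Disjoint (TT p r i) (TT p r j) := by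
  rw [Finset.disjoint_left]
  intro e he he'
  rw [mem_TT] at he he'
  apply h
  obtain ⟨l, n⟩ := i
  obtain ⟨l', n'⟩ := j
  obtain ⟨h1, h2⟩ := he
  obtain ⟨h3, h4⟩ := he'
  unfold colsT at h1 h3
  unfold lowT at h2 h4
  fin_cases l <;> fin_cases l' <;> simp at h1 h2 h3 h4 ⊢ <;> omega

/-- the sign of an edge: `+` for horizontal edges of odd layers and vertical edges of even layers -/
def sE (e : Edge) : Bool := if ly e % 2 = 1 then !e.2.2 else e.2.2

/-- `1` for an open horizontal edge, `-1` for an open vertical edge, `0` for a closed edge -/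
def sgE (ω : Conf) (e : Edge) : ℤ := if ω e = true then (if e.2.2 = true then -1 else 1) else 0

theorem DG_TT (p r : ℕ) (ω : Conf) (i : Fin 3 × ℕ) : DG (TT p r) sE ω i =
    ∑ j ∈ colsT p r i.1, (sgE ω (sqE j (lowT i.1 i.2)) - sgE ω (sqE j (lowT i.1 i.2 + 1))) := by
  unfold DG TT
  rw [Finset.sum_image, Finset.sum_product]
  · refine Finset.sum_congr rfl fun j _ => ?_
    rw [Finset.sum_pair (by omega)]
    have hodd : lowT i.1 i.2 % 2 = 1 := by
      unfold lowT
      split_ifs <;> omega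
    have heven : ¬ (lowT i.1 i.2 + 1) % 2 = 1 := by omega
    have s1 : sE (sqE j (lowT i.1 i.2)) = !(sqE j (lowT i.1 i.2)).2.2 := by
      unfold sE
      rw [ly_sqE, if_pos hodd]
    have s2 : sE (sqE j (lowT i.1 i.2 + 1)) = (sqE j (lowT i.1 i.2 + 1)).2.2 := by
      unfold sE
      rw [ly_sqE, if_neg heven]
    unfold sv1 sgE
    rw [s1, s2]
    cases ω (sqE j (lowT i.1 i.2)) <;> cases ω (sqE j (lowT i.1 i.2 + 1)) <;>
      cases (sqE j (lowT i.1 i.2)).2.2 <;> cases (sqE j (lowT i.1 i.2 + 1)).2.2 <;> simp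
  · rintro ⟨j, s⟩ _ ⟨j', s'⟩ _ h
    have h1 := congrArg lc h
    have h2 := congrArg ly h
    simp only at h1 h2
    rw [lc_sqE, lc_sqE] at h1
    rw [ly_sqE, ly_sqE] at h2
    exact Prod.ext h1 h2

/-! ### the event depends only on the edges of the strip -/

theorem hit_dep (p r : ℕ) (ω ω' : Conf) (h : ∀ e ∈ {e : Edge | ∃ i, e ∈ TT p r i}, ω e = ω' e)
    (hω : ω ∈ Hit p r) : ω' ∈ Hit p r := by
  have key : ∀ e : Edge, 1 - (p:ℤ) ≤ lc e → lc e ≤ r → (ly e ≤ 0 ∨ lc e ≤ -1 ∨ 2 ≤ lc e) →
      ω e = ω' e := by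
    intro e h1 h2 h3
    apply h
    by_cases c1 : ly e ≤ 0
    · refine ⟨(0, ((-ly e) / 2).toNat), ?_⟩
      rw [mem_TT]
      unfold colsT lowT
      simp only [if_true, Finset.mem_Icc]
      omega
    · by_cases c2 : lc e ≤ -1
      · refine ⟨(1, ((ly e - 1) / 2).toNat), ?_⟩
        rw [mem_TT]
        unfold colsT lowT
        simp only [Fin.isValue, one_ne_zero, if_false, if_true, Finset.mem_Icc]
        omega
      · refine ⟨(2, ((ly e - 1) / 2).toNat), ?_⟩
        rw [mem_TT]
        unfold colsT lowT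
        simp only [Fin.isValue, Fin.reduceEq, if_false, Finset.mem_Icc]
        omega
  obtain ⟨y, hy, hr⟩ := hω
  refine ⟨y, hy, rtg_mono (fun a b hab => ?_) hr⟩
  obtain ⟨⟨h1, h2⟩, h3, h4, h5, h6⟩ := hab
  refine ⟨⟨?_, h2⟩, h3, h4, h5, h6⟩
  obtain ⟨a1, a2⟩ := a
  obtain ⟨b1, b2⟩ := b
  simp only at h2 h3 h4 h5 h6
  rcases h1 with ⟨g1, g2⟩ | ⟨g1, g2⟩ | ⟨g1, g2⟩ | ⟨g1, g2⟩
  · simp only [Prod.mk.injEq] at g1 g2
    left
    refine ⟨by simp only [Prod.mk.injEq]; exact g1, ?_⟩
    simp only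
    rw [← key (a1, a2, false) (by unfold lc; simp; omega) (by unfold lc; simp; omega)
      (by unfold lc ly; simp; omega)]
    exact g2
  · simp only [Prod.mk.injEq] at g1 g2
    right; left
    refine ⟨by simp only [Prod.mk.injEq]; exact g1, ?_⟩
    simp only
    rw [← key (b1, b2, false) (by unfold lc; simp; omega) (by unfold lc; simp; omega)
      (by unfold lc ly; simp; omega)]
    exact g2
  · simp only [Prod.mk.injEq] at g1 g2
    right; right; left
    refine ⟨by simp only [Prod.mk.injEq]; exact g1, ?_⟩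
    simp only
    rw [← key (a1, a2, true) (by unfold lc; simp; omega) (by unfold lc; simp; omega)
      (by unfold lc ly; simp; omega)]
    exact g2
  · simp only [Prod.mk.injEq] at g1 g2
    right; right; right
    refine ⟨by simp only [Prod.mk.injEq]; exact g1, ?_⟩
    simp only
    rw [← key (b1, b2, true) (by unfold lc; simp; omega) (by unfold lc; simp; omega)
      (by unfold lc ly; simp; omega)]
    exact g2

theorem measurableSet_hit (p r : ℕ) : MeasurableSet (Hit p r) := ex_meas (sAdj_meas p r) _ _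

/-! ### the environments -/

/-- the weight of the group `i` -/
noncomputable def zS (S : Finset (Fin 3 × ℕ)) (x : Fin 3 × ℕ → I) (i : Fin 3 × ℕ) : I :=
  if i ∈ S then x i else hlf

/-- the value of the layer `s` -/
noncomputable def vl (z : I) (s : ℤ) : I := if s % 2 = 1 then z else σ z

noncomputable def hS (S : Finset (Fin 3 × ℕ)) (x : Fin 3 × ℕ → I) (s : ℤ) : I :=
  if s ≤ 0 then vl (zS S x (0, ((-s) / 2).toNat)) s else vl (zS S x (1, ((s - 1) / 2).toNat)) s

noncomputable def gS (S : Finset (Fin 3 × ℕ)) (x : Fin 3 × ℕ → I) (s : ℤ) : I :=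
  vl (zS S x (2, ((s - 1) / 2).toNat)) s

theorem zS_ev (S : Finset (Fin 3 × ℕ)) (x : Fin 3 × ℕ → I) (l : Fin 3) :
    ∃ N : ℕ, ∀ n, N ≤ n → zS S x (l, n) = hlf := by
  refine ⟨S.sup Prod.snd + 1, fun n hn => ?_⟩
  unfold zS
  rw [if_neg]
  intro h
  have := Finset.le_sup (f := Prod.snd) h
  simp only at this
  omega

theorem vl_hlf (s : ℤ) : ((vl hlf s : I) : ℝ) = 1/2 := by
  unfold vl
  split_ifs
  · exact hlf_val
  · rw [symm_val, hlf_val]; norm_num

theorem nonT_S (S : Finset (Fin 3 × ℕ)) (x : Fin 3 × ℕ → I) : NonT (hS S x) (gS S x) := by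
  refine ⟨?_, ?_, ?_, ?_, ?_⟩
  · intro n
    unfold hS
    by_cases hn : n ≤ 0
    · rw [if_pos (by omega), if_pos (by omega)]
      have e1 : (-(2 * n)) / 2 = -n := by omega
      have e2 : (-(2 * n - 1)) / 2 = -n := by omega
      rw [e1, e2]
      unfold vl
      rw [if_neg (by omega), if_pos (by omega)]
    · rw [if_neg (by omega), if_neg (by omega)]
      have e1 : (2 * n - 1) / 2 = n - 1 := by omega
      have e2 : (2 * n - 1 - 1) / 2 = n - 1 := by omega
      rw [e1, e2]
      unfold vl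
      rw [if_neg (by omega), if_pos (by omega)]
  · intro n
    unfold gS
    have e1 : (2 * n - 1) / 2 = n - 1 := by omega
    have e2 : (2 * n - 1 - 1) / 2 = n - 1 := by omega
    rw [e1, e2]
    unfold vl
    rw [if_neg (by omega), if_pos (by omega)]
  · obtain ⟨N, hN⟩ := zS_ev S x 1
    refine ⟨1/2, by norm_num, Eventually.frequently ?_⟩
    filter_upwards [eventually_ge_atTop (N+1)] with n hn
    unfold hS
    rw [if_neg (by omega)]
    have e1 : ((2 * (n:ℤ) - 1) / 2).toNat = n - 1 := by omega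
    rw [e1, hN (n-1) (by omega), vl_hlf]
    norm_num
  · obtain ⟨N, hN⟩ := zS_ev S x 2
    refine ⟨1/2, by norm_num, Eventually.frequently ?_⟩
    filter_upwards [eventually_ge_atTop (N+1)] with n hn
    unfold gS
    have e1 : ((2 * (n:ℤ) - 1) / 2).toNat = n - 1 := by omega
    rw [e1, hN (n-1) (by omega), vl_hlf]
    norm_num
  · obtain ⟨N, hN⟩ := zS_ev S x 0
    refine ⟨1/2, by norm_num, Eventually.frequently ?_⟩
    filter_upwards [eventually_ge_atTop (N+1)] with n hn
    unfold hS
    rw [if_pos (by omega)]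
    have e1 : ((-(-(2 * (n:ℤ)))) / 2).toNat = n := by omega
    rw [e1, hN n (by omega), vl_hlf]
    norm_num

theorem pX_eq (p r : ℕ) (S : Finset (Fin 3 × ℕ)) (x : Fin 3 × ℕ → I) (e : Edge)
    (he : e ∈ {e : Edge | ∃ i, e ∈ TT p r i}) : pX (TT p r) sE S x e = pTG (hS S x) (gS S x) e := by
  obtain ⟨i, hi⟩ := he
  -- the left side
  have h1 : pX (TT p r) sE S x e = if sE e = true then zS S x i else σ (zS S x i) := by
    by_cases hS' : i ∈ S
    · rw [pX_mem (TT_disj p r) sE S x hS' hi]
      unfold zS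
      rw [if_pos hS']
    · rw [pX_not]
      · unfold zS
        rw [if_neg hS']
        split_ifs
        · rfl
        · apply Subtype.ext
          rw [symm_val, hlf_val]
          norm_num
      · rintro ⟨j, hj, hj'⟩
        by_cases hij : i = j
        · rw [hij] at hS'; exact hS' hj
        · exact Finset.disjoint_left.1 (TT_disj p r i j hij) hi hj'
  -- the right side
  have h2 : pTG (hS S x) (gS S x) e =
      if e.2.2 = true then σ (vl (zS S x i) (ly e)) else vl (zS S x i) (ly e) := by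
    have hx : (if 1 ≤ e.1 + e.2.1 ∧ 1 ≤ e.1 - e.2.1 then gS S x (e.1 + e.2.1)
        else hS S x (e.1 + e.2.1)) = vl (zS S x i) (ly e) := by
      rw [mem_TT] at hi
      obtain ⟨l, n⟩ := i
      obtain ⟨g1, g2⟩ := hi
      unfold colsT at g1
      unfold lowT at g2
      have hlc : lc e = e.1 - e.2.1 ∨ lc e = e.1 - e.2.1 - 1 := by
        unfold lc
        split_ifs
        · exact Or.inr rfl
        · exact Or.inl rfl
      change (if 1 ≤ ly e ∧ 1 ≤ e.1 - e.2.1 then gS S x (ly e) else hS S x (ly e)) = _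
      fin_cases l
      · simp at g1 g2
        rw [if_neg (by omega)]
        unfold hS
        rw [if_pos (by omega)]
        congr 3
        omega
      · simp at g1 g2
        rw [if_neg (by omega)]
        unfold hS
        rw [if_neg (by omega)]
        congr 3
        omega
      · simp at g1 g2
        rw [if_pos (by omega)]
        unfold gS
        congr 3
        omega
    unfold pTG
    simp only
    rw [hx]
  rw [h1, h2]
  unfold sE vl
  by_cases hl : ly e % 2 = 1
  · rw [if_pos hl, if_pos hl]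
    cases e.2.2 <;> simp
  · rw [if_neg hl, if_neg hl]
    cases e.2.2 <;> simp

theorem inv_hit {p r : ℕ} (hp : Even p) (hp0 : 0 < p) (hr : Even r) (hr0 : 0 < r) :
    InvX (TT p r) sE (Hit p r) := by
  intro S x
  rw [percP_congr {e : Edge | ∃ i, e ∈ TT p r i} (measurableSet_hit p r) (hit_dep p r)
    (pX_eq p r S x), hitP_exact (nonT_S S x) hp hp0 hr hr0, hit_exact hp hp0 hr hr0]

/-- **exact independence** -/
theorem hit_indep {p r : ℕ} (hp : Even p) (hp0 : 0 < p) (hr : Even r) (hr0 : 0 < r)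
    (B : Set (Fin 3 × ℕ → ℤ)) (hB : MeasurableSet B) :
    perc.real (Hit p r ∩ {ω | (fun i => DG (TT p r) sE ω i) ∈ B}) =
      perc.real (Hit p r) * perc.real {ω | (fun i => DG (TT p r) sE ω i) ∈ B} :=
  indepX_all (TT_disj p r) sE (measurableSet_hit p r) (inv_hit hp hp0 hr hr0) B hB

end Pool.Agent.H29.LE
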