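import Pool.Agent.H29.LE.Stat
import Pool.Agent.H29.TW.Perc

/-!
The law of the state in a layered environment with open first tiles: weighted sum over the bits, and
convergence.
-/

set_option autoImplicit false

namespace Pool.Agent.H29.LE

open Pool.Agent.H988R2.Perc hiding X
open Pool.Agent.H988R2.Perc.T23 (bits SS row mem_row mem_SS SS_succ row_succ row_succ' bits_insert
  fwdS_congr bwdS_congr X_congr)
open Pool.Agent.H29.TW (force actBit_force_insert gd gfw gbw gTF top mapDomain_gTF bd_gd wL wW)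
open Q292.Env (tileY tileY_smul bp wt wt_insert_not wt_insert_mem tile_stepY mapDomain_sumY
  el el_nonneg el_le_one)
open Finset

/-- the law of the state after `M` double rows of weights `c 0, …, c (M-1)` with open first tiles -/
noncomputable def lawG (L : ℕ) (c : ℕ → ℝ) : ℕ → St →₀ ℂ
  | 0 => Finsupp.single St.bot 1
  | M+1 => TG L (c M) (lawG L c M)

theorem tile_stepG (c : ℕ → ℝ) (S : Finset (ℕ × ℕ)) (k i : ℕ) (hS : (k, i) ∉ S)
    (Y : Finset (ℕ × ℕ) → St) (hY : ∀ t, Y (insert (k, i) t) = Y t) :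
    tileG (c (k / 2)) i (∑ t ∈ S.powerset, Finsupp.single (Y t) ((wt c S t : ℝ) : ℂ)) =
      ∑ t ∈ (insert (k, i) S).powerset,
        Finsupp.single (if actBit (force (bits t)) k i then St.act i (Y t) else Y t)
          ((wt c (insert (k, i) S) t : ℝ) : ℂ) := by
  by_cases h1 : i = 1
  · subst h1
    unfold tileG
    rw [if_pos rfl, Finsupp.mapDomain_finsetSum, Finset.sum_powerset_insert hS,
      ← Finset.sum_add_distrib]
    refine Finset.sum_congr rfl fun t ht => ?_
    have hts : t ⊆ S := Finset.mem_powerset.mp ht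
    rw [hY, wt_insert_not c S t _ hS hts, wt_insert_mem c S t _ hS, Finsupp.mapDomain_single]
    have e : ∀ o : ℕ → ℕ → Bool, actBit (force o) k 1 = true := by
      intro o; simp [actBit, force]
    rw [e, e, if_pos rfl, ← Finsupp.single_add]
    congr 1
    push_cast
    ring
  · have h2 := tile_stepY c S k i hS Y hY
    unfold tileG
    rw [if_neg h1, h2]
    refine Finset.sum_congr rfl fun t ht => ?_
    have e : actBit (force (bits t)) k i = actBit (bits t) k i := by
      simp [actBit, force, h1]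
    rw [e]

theorem fwd_stepG (c : ℕ → ℝ) (n : ℕ) (S : Finset (ℕ × ℕ)) (k : ℕ)
    (hS : ∀ i, 1 ≤ i → i ≤ n → (k, i) ∉ S)
    (Y : Finset (ℕ × ℕ) → St) (hY : ∀ i t, 1 ≤ i → i ≤ n → Y (insert (k, i) t) = Y t) :
    fwdG (c (k / 2)) n (∑ t ∈ S.powerset, Finsupp.single (Y t) ((wt c S t : ℝ) : ℂ)) =
      ∑ t ∈ (S ∪ row k n).powerset,
        Finsupp.single (fwdS n (actBit (force (bits t)) k) (Y t))
          ((wt c (S ∪ row k n) t : ℝ) : ℂ) := by
  induction n with
  | zero =>
    have : S ∪ row k 0 = S := by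
      ext j; simp only [mem_union, mem_row]; constructor
      · rintro (h | h)
        · exact h
        · omega
      · exact Or.inl
    simp [fwdG, fwdS, this]
  | succ n ih =>
    simp only [fwdG]
    rw [ih (fun i h1 h2 => hS i h1 (by omega)) (fun i t h1 h2 => hY i t h1 (by omega)), row_succ]
    have hn : (k, n+1) ∉ S ∪ row k n := by
      simp only [mem_union, mem_row, not_or]
      exact ⟨hS (n+1) (by omega) le_rfl, by omega⟩
    rw [tile_stepG c (S ∪ row k n) k (n+1) hn
      (fun t => fwdS n (actBit (force (bits t)) k) (Y t)) (by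
        intro t
        rw [hY (n+1) t (by omega) le_rfl]
        exact fwdS_congr n _ _ _ (fun i _ h2 => actBit_force_insert t k i (n+1) (by omega)))]
    rfl

theorem bwd_stepG (c : ℕ → ℝ) (n : ℕ) (S : Finset (ℕ × ℕ)) (k : ℕ)
    (hS : ∀ i, 1 ≤ i → i ≤ n → (k, i) ∉ S)
    (Y : Finset (ℕ × ℕ) → St) (hY : ∀ i t, 1 ≤ i → i ≤ n → Y (insert (k, i) t) = Y t) :
    bwdG (c (k / 2)) n (∑ t ∈ S.powerset, Finsupp.single (Y t) ((wt c S t : ℝ) : ℂ)) =
      ∑ t ∈ (S ∪ row k n).powerset,
        Finsupp.single (bwdS n (actBit (force (bits t)) k) (Y t))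
          ((wt c (S ∪ row k n) t : ℝ) : ℂ) := by
  induction n generalizing S Y with
  | zero =>
    have : S ∪ row k 0 = S := by
      ext j; simp only [mem_union, mem_row]; constructor
      · rintro (h | h)
        · exact h
        · omega
      · exact Or.inl
    simp [bwdG, bwdS, this]
  | succ n ih =>
    simp only [bwdG]
    rw [tile_stepG c S k (n+1) (hS (n+1) (by omega) le_rfl) Y
      (fun t => hY (n+1) t (by omega) le_rfl)]
    rw [ih (insert (k, n+1) S) ?_
      (fun t => if actBit (force (bits t)) k (n+1) then St.act (n+1) (Y t) else Y t) ?_]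
    · rw [row_succ']
      rfl
    · intro i h1 h2 h
      rw [mem_insert] at h
      rcases h with h | h
      · simp only [Prod.mk.injEq] at h; omega
      · exact hS i h1 (by omega) h
    · intro i t h1 h2
      rw [hY i t h1 (by omega), actBit_force_insert t k (n+1) i (by omega)]

theorem law_eqG (L : ℕ) (c : ℕ → ℝ) (M : ℕ) : lawG L c M =
    ∑ t ∈ (SS L M).powerset,
      Finsupp.single (Pool.Agent.H988R2.Perc.X L (actBit (force (bits t))) M)
        ((wt c (SS L M) t : ℝ) : ℂ) := by
  induction M with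
  | zero =>
    have : SS L 0 = ∅ := by simp [SS]
    simp [lawG, this, Pool.Agent.H988R2.Perc.X, wt]
  | succ M ih =>
    rw [lawG, ih]
    unfold TG
    rw [mapDomain_sumY]
    have e0 : c M = c (2*M/2) := by congr 1; omega
    have e1 : c M = c ((2*M+1)/2) := by congr 1; omega
    rw [e0, fwd_stepG c L (SS L M) (2*M) (fun i _ _ h => by rw [mem_SS] at h; simp at h)
        (fun t => St.ins 0 (Pool.Agent.H988R2.Perc.X L (actBit (force (bits t))) M)) ?_, ← e0, e1,
      bwd_stepG c L (SS L M ∪ row (2*M) L) (2*M+1)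
        (fun i _ _ h => by
          rw [mem_union, mem_SS, mem_row] at h
          simp only at h
          omega)
        (fun t => fwdS L (actBit (force (bits t)) (2*M))
          (St.ins 0 (Pool.Agent.H988R2.Perc.X L (actBit (force (bits t))) M))) ?_,
      mapDomain_sumY, ← SS_succ]
    · rfl
    · intro i t _ _
      have e1 : ∀ k i', k ≠ 2*M+1 → actBit (force (bits (insert (2*M+1, i) t))) k i' =
          actBit (force (bits t)) k i' := by
        intro k i' hk
        simp [actBit, force, bits, hk]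
      rw [X_congr L _ (actBit (force (bits t))) M (fun k i' hk _ _ => e1 k i' (by omega)),
        fwdS_congr L _ (actBit (force (bits t)) (2*M)) _ (fun i' _ _ => e1 _ i' (by omega))]
    · intro i t _ _
      have e1 : ∀ k i', k ≠ 2*M → actBit (force (bits (insert (2*M, i) t))) k i' =
          actBit (force (bits t)) k i' := by
        intro k i' hk
        simp [actBit, force, bits, hk]
      rw [X_congr L _ (actBit (force (bits t))) M (fun k i' hk _ _ => e1 k i' (by omega))]

/-! ### contraction -/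

open T24

theorem dob_tileG (y m : ℝ) (hm : 0 ≤ m) (h1 : m ≤ y) (h2 : m ≤ 1 - y) (i : ℕ) :
    Dob (tileG y i) (gd i) m where
  pos := hm
  le := by linarith
  add f g := by
    unfold tileG tileY
    split_ifs
    · exact Finsupp.mapDomain_add
    · rw [Finsupp.mapDomain_add, smul_add, smul_add]
      abel
  smul c f := tileG_smul y i c f
  mass f := by
    unfold tileG tileY
    split_ifs
    · exact T24.mass_mapDomain _ _
    · rw [T24.mass_add, T24.mass_smul, T24.mass_smul, T24.mass_mapDomain]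
      push_cast
      ring
  dec f := by
    have hy0 : 0 ≤ y := by linarith
    have hy1 : 0 ≤ 1 - y := by linarith
    unfold tileG
    split_ifs with hi1
    · have e : Finsupp.mapDomain (St.act 1) f - (m : ℂ) • Finsupp.mapDomain (gd i) f =
          ((1 - m : ℝ) : ℂ) • Finsupp.mapDomain (St.act 1) f := by
        have : gd i = St.act 1 := by funext R; simp [gd, hi1]
        rw [this]
        push_cast
        rw [sub_smul, one_smul]
      rw [e, nrm_smul, Complex.norm_real, Real.norm_eq_abs, abs_of_nonneg (by linarith)]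
      exact mul_le_mul_of_nonneg_left (nrm_mapDomain_le (St.act 1) f) (by linarith)
    · by_cases hi : i % 2 = 1
      · have e : tileY y i f - (m : ℂ) • Finsupp.mapDomain (gd i) f =
            ((1 - y : ℝ) : ℂ) • f + ((y - m : ℝ) : ℂ) • Finsupp.mapDomain (St.act i) f := by
          have : gd i = St.act i := by funext R; simp [gd, hi]
          rw [this]
          unfold tileY
          push_cast
          rw [sub_smul (y : ℂ)]
          abel
        rw [e]
        refine (nrm_add_le _ _).trans ?_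
        rw [nrm_smul, nrm_smul, Complex.norm_real, Complex.norm_real, Real.norm_eq_abs,
          Real.norm_eq_abs, abs_of_nonneg hy1, abs_of_nonneg (by linarith : 0 ≤ y - m)]
        have := mul_le_mul_of_nonneg_left (nrm_mapDomain_le (St.act i) f)
          (by linarith : 0 ≤ y - m)
        linarith
      · have e : tileY y i f - (m : ℂ) • Finsupp.mapDomain (gd i) f =
            ((1 - y - m : ℝ) : ℂ) • f + (y : ℂ) • Finsupp.mapDomain (St.act i) f := by
          have : gd i = id := by funext R; simp [gd, hi]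
          rw [this, Finsupp.mapDomain_id]
          unfold tileY
          push_cast
          rw [sub_smul (1 - (y : ℂ))]
          abel
        rw [e]
        refine (nrm_add_le _ _).trans ?_
        rw [nrm_smul, nrm_smul, Complex.norm_real, Complex.norm_real, Real.norm_eq_abs,
          Real.norm_eq_abs, abs_of_nonneg (by linarith : 0 ≤ 1 - y - m), abs_of_nonneg hy0]
        have := mul_le_mul_of_nonneg_left (nrm_mapDomain_le (St.act i) f) hy0
        linarith

theorem dob_fwdG (y m : ℝ) (hm : 0 ≤ m) (h1 : m ≤ y) (h2 : m ≤ 1 - y) (L : ℕ) :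
    Dob (fwdG y L) (gfw L) (m^L) := by
  induction L with
  | zero =>
    have h := dob_map (fun R => R)
    have e : (Finsupp.mapDomain (fun R : St => R) : (St →₀ ℂ) → (St →₀ ℂ)) = fwdG y 0 := by
      funext f
      exact Finsupp.mapDomain_id
    rw [e] at h
    have e2 : gfw 0 = (fun R => R) := rfl
    rw [e2, pow_zero]
    exact h
  | succ L ih =>
    have h := (dob_tileG y m hm h1 h2 (L+1)).comp ih
    rw [pow_succ, mul_comm]
    exact h

theorem dob_bwdG (y m : ℝ) (hm : 0 ≤ m) (h1 : m ≤ y) (h2 : m ≤ 1 - y) (L : ℕ) :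
    Dob (bwdG y L) (gbw L) (m^L) := by
  induction L with
  | zero =>
    have h := dob_map (fun R => R)
    have e : (Finsupp.mapDomain (fun R : St => R) : (St →₀ ℂ) → (St →₀ ℂ)) = bwdG y 0 := by
      funext f
      exact Finsupp.mapDomain_id
    rw [e] at h
    have e2 : gbw 0 = (fun R => R) := rfl
    rw [e2, pow_zero]
    exact h
  | succ L ih =>
    have h := ih.comp (dob_tileG y m hm h1 h2 (L+1))
    rw [pow_succ]
    exact h

theorem dob_TG (y m : ℝ) (hm : 0 ≤ m) (h1 : m ≤ y) (h2 : m ≤ 1 - y) (L : ℕ) :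
    Dob (TG L y) (gTF L) (m^L * m^L) := by
  have h := (dob_map (St.cap 0)).comp
    ((dob_bwdG y m hm h1 h2 L).comp ((dob_fwdG y m hm h1 h2 L).comp (dob_map (St.ins 0))))
  rw [one_mul, mul_one] at h
  exact h

theorem BdV_tileG {y : ℝ} {K i : ℕ} (hi : i + 2 < K) {f : St →₀ ℂ} (hf : BdV K f) :
    BdV K (tileG y i f) := by
  unfold tileG
  split_ifs with h
  · exact BdV.map hf fun _ h => bd_act (by omega) h
  · exact Q292.Env.BdV_tileY hi hf

theorem BdV_fwdG {y : ℝ} {K L : ℕ} (hi : L + 2 < K) {f : St →₀ ℂ} (hf : BdV K f) :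
    BdV K (fwdG y L f) := by
  induction L with
  | zero => exact hf
  | succ L ih => exact BdV_tileG hi (ih (by omega))

theorem BdV_bwdG {y : ℝ} {K L : ℕ} (hi : L + 2 < K) {f : St →₀ ℂ} (hf : BdV K f) :
    BdV K (bwdG y L f) := by
  induction L generalizing f with
  | zero => exact hf
  | succ L ih => exact ih (by omega) (BdV_tileG hi hf)

theorem BdV_TG {y : ℝ} {L : ℕ} {f : St →₀ ℂ} (hf : BdV (L+1) f) : BdV (L+1) (TG L y f) :=
  BdV.map (BdV_bwdG (by omega) (BdV_fwdG (by omega) (hf.map fun _ h => bd_ins h)))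
    fun _ h => bd_cap (by omega) h

theorem contractG {y m : ℝ} (hm0 : 0 ≤ m) (h1 : m ≤ y) (h2 : m ≤ 1 - y) {L : ℕ}
    {f : St →₀ ℂ} (hf : BdV (L+1) f) (hm : mass f = 0) :
    nrm (TG L y f) ≤ (1 - m^L * m^L) * nrm f := by
  have h := (dob_TG y m hm0 h1 h2 L).dec f
  rw [mapDomain_gTF hf, hm, Finsupp.single_zero, smul_zero, sub_zero] at h
  exact h

theorem law_diffG (L : ℕ) (w : St →₀ ℂ) (hw : mass w = 1) (hwB : BdV (L+1) w)
    (hT : ∀ y, TG L y w = w)
    (c : ℕ → ℝ) (M : ℕ) (hc : ∀ j < M, c j ∈ Set.Icc (0:ℝ) 1) :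
    nrm (lawG L c M + (-1 : ℂ) • w) ≤
        (∏ j ∈ range M, (1 - el (c j)^L * el (c j)^L)) *
          nrm (Finsupp.single St.bot 1 + (-1 : ℂ) • w) ∧
      BdV (L+1) (lawG L c M + (-1 : ℂ) • w) ∧ mass (lawG L c M + (-1 : ℂ) • w) = 0 := by
  induction M with
  | zero =>
    refine ⟨by simp [lawG], ?_, ?_⟩
    · refine BdV.add ?_ (hwB.smul _)
      intro R hR a b h
      have : R = St.bot := by
        have := Finsupp.support_single_subset hR
        simpa using this
      subst this
      exact Or.inl h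
    · rw [lawG, T24.mass_add, T24.mass_smul, T24.mass_single, hw]; ring
  | succ M ih =>
    obtain ⟨i1, i2, i3⟩ := ih (fun j hj => hc j (by omega))
    have hcM := hc M (by omega)
    have d := dob_TG (c M) (el (c M)) (el_nonneg hcM) (min_le_left _ _) (min_le_right _ _) L
    have e : lawG L c (M+1) + (-1 : ℂ) • w = TG L (c M) (lawG L c M + (-1 : ℂ) • w) := by
      rw [lawG, d.add, d.smul, hT]
    rw [e]
    refine ⟨?_, BdV_TG i2, by rw [d.mass, i3]⟩
    refine (contractG (el_nonneg hcM) (min_le_left _ _) (min_le_right _ _) i2 i3).trans ?_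
    rw [prod_range_succ, mul_comm (∏ j ∈ range M, _) _, mul_assoc]
    exact mul_le_mul_of_nonneg_left i1 (by linarith [d.le])

open Filter Topology

theorem law_tendstoG (L : ℕ) (w : St →₀ ℂ) (hw : mass w = 1) (hwB : BdV (L+1) w)
    (hT : ∀ y, TG L y w = w) (c : ℕ → ℕ → ℝ) (hc : ∀ M j, c M j ∈ Set.Icc (0:ℝ) 1)
    (hp : Tendsto (fun M => ∏ j ∈ range M, (1 - el (c M j)^L * el (c M j)^L)) atTop (𝓝 0)) :
    Tendsto (fun M => nrm (lawG L (c M) M + (-1 : ℂ) • w)) atTop (𝓝 0) := by
  have h := hp.mul_const (nrm (Finsupp.single St.bot 1 + (-1 : ℂ) • w))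
  rw [zero_mul] at h
  exact squeeze_zero (fun _ => nrm_nonneg _)
    (fun M => (law_diffG L w hw hwB hT (c M) M (fun j _ => hc M j)).1) h

/-- the normalised vectors -/
noncomputable def nL (m : ℕ) : St →₀ ℂ := (mass (wL (2*m+2)))⁻¹ • wL (2*m+2)
noncomputable def nW (m : ℕ) : St →₀ ℂ := (mass (wW (2*m+3)))⁻¹ • wW (2*m+3)

theorem mass_wW_ne' (m : ℕ) (h : 1 ≤ m) : mass (wW (2*m+3)) ≠ 0 := by
  have := Pool.Agent.H29.TW.mass_wW_ne (m-1) 0
  have e : 2*(m-1)+2+(2*0+1)+2 = 2*m+3 := by omega
  rwa [e] at this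

theorem law_nL (m : ℕ) (c : ℕ → ℕ → ℝ) (hc : ∀ M j, c M j ∈ Set.Icc (0:ℝ) 1)
    (hp : Tendsto (fun M => ∏ j ∈ range M, (1 - el (c M j)^(2*m+2) * el (c M j)^(2*m+2)))
      atTop (𝓝 0)) :
    Tendsto (fun M => nrm (lawG (2*m+2) (c M) M + (-1 : ℂ) • nL m)) atTop (𝓝 0) := by
  refine law_tendstoG (2*m+2) (nL m) ?_ ?_ ?_ c hc hp
  · unfold nL
    rw [T24.mass_smul, inv_mul_cancel₀ (Pool.Agent.H29.TW.mass_wL_ne m)]
  · refine BdV.smul (fun R hR a b h => ?_) _
    rcases Pool.Agent.H29.TW.supp_wL m R hR a b h with h | h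
    · exact Or.inl h
    · right; omega
  · intro y
    unfold nL
    rw [TG_smul, stat_wL]

theorem law_nW (m : ℕ) (hm : 1 ≤ m) (c : ℕ → ℕ → ℝ) (hc : ∀ M j, c M j ∈ Set.Icc (0:ℝ) 1)
    (hp : Tendsto (fun M => ∏ j ∈ range M, (1 - el (c M j)^(2*m+3) * el (c M j)^(2*m+3)))
      atTop (𝓝 0)) :
    Tendsto (fun M => nrm (lawG (2*m+3) (c M) M + (-1 : ℂ) • nW m)) atTop (𝓝 0) := by
  refine law_tendstoG (2*m+3) (nW m) ?_ ?_ ?_ c hc hp
  · unfold nW
    rw [T24.mass_smul, inv_mul_cancel₀ (mass_wW_ne' m hm)]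
  · exact BdV.smul (fun R hR a b h => Pool.Agent.H29.TW.supp_wW m R hR a b h) _
  · intro y
    unfold nW
    rw [TG_smul, stat_wW]

end Pool.Agent.H29.LE
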