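import Pool.Agent.H29.LE.Zero
import Pool.Agent.H29.TW.Lim

/-!
The tip of the slit in layered environments, in the coordinates of the tip `(1,0)`: exact values and
limits.
-/

set_option autoImplicit false

namespace Pool.Agent.H29.LE

open Pool.Agent.H988R2.Perc hiding X
open Pool.Agent.H981R2.TP
open Pool.Agent.H981R2.TP.PL
open Pool.Agent.H29.TW
open Pool.Agent.R966.Tip
open Q292.Env (percP Lay ElP ElF percP_map symm_val perc_eq_percP)
open MeasureTheory Finset Filter Topology unitInterval ProbabilityTheory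

/-- the parameters of the edges in the environment `h` (`g` on the right of the slit) -/
def pTG (h g : ℤ → I) (e : Edge) : I :=
  let x := if 1 ≤ e.1 + e.2.1 ∧ 1 ≤ e.1 - e.2.1 then g (e.1 + e.2.1) else h (e.1 + e.2.1)
  if e.2.2 then σ x else x

/-- layered environments for the slit with the tip of height `1` -/
structure NonT (h g : ℤ → I) : Prop where
  h_pair : ∀ n : ℤ, h (2 * n) = σ (h (2 * n - 1))
  g_pair : ∀ n : ℤ, g (2 * n) = σ (g (2 * n - 1))
  h_up : ∃ ε : ℝ, 0 < ε ∧ ∃ᶠ n : ℕ in atTop, ε ≤ (h (2 * n) : ℝ) ∧ (h (2 * n) : ℝ) ≤ 1 - ε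
  g_up : ∃ ε : ℝ, 0 < ε ∧ ∃ᶠ n : ℕ in atTop, ε ≤ (g (2 * n) : ℝ) ∧ (g (2 * n) : ℝ) ≤ 1 - ε
  h_down : ∃ ε : ℝ, 0 < ε ∧ ∃ᶠ n : ℕ in atTop, ε ≤ (h (-(2 * n)) : ℝ) ∧ (h (-(2 * n)) : ℝ) ≤ 1 - ε

theorem elF_T {h : ℤ → I}
    (hu : ∃ ε : ℝ, 0 < ε ∧ ∃ᶠ n : ℕ in atTop, ε ≤ (h (2 * n) : ℝ) ∧ (h (2 * n) : ℝ) ≤ 1 - ε) :
    ElF (fun n => h (2 * n + 2)) := by
  obtain ⟨ε, hε, hf⟩ := hu
  refine ⟨ε, hε, ?_⟩
  rw [frequently_atTop] at hf ⊢
  intro N
  obtain ⟨n, hn, h1⟩ := hf (N+1)
  refine ⟨n - 1, by omega, ?_⟩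
  have e : 2 * (((n - 1 : ℕ)) : ℤ) + 2 = 2 * (n:ℤ) := by omega
  simp only
  rw [e]
  exact h1

theorem elP_T {h : ℤ → I}
    (hu : ∃ ε : ℝ, 0 < ε ∧ ∃ᶠ n : ℕ in atTop, ε ≤ (h (-(2 * n)) : ℝ) ∧
      (h (-(2 * n)) : ℝ) ≤ 1 - ε) :
    ElP (fun n => h (2 * n + 2)) := by
  obtain ⟨ε, hε, hf⟩ := hu
  refine ⟨ε, hε, hf.mono fun n hn => ?_⟩
  have e : 2 * (-(n:ℤ) - 1) + 2 = -(2 * (n:ℤ)) := by ring
  simp only
  rw [e]
  exact hn

theorem lay_T (m b : ℕ) (h g : ℤ → I)
    (hh : ∀ n : ℤ, h (2 * n) = σ (h (2 * n - 1))) (hg : ∀ n : ℤ, g (2 * n) = σ (g (2 * n - 1))) :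
    Lay (2*m+2) b (fun i => pTG h g ((sh (m+1) (-(m+1))).symm i)) (fun n => h (2 * n + 2))
      (fun n => h (2 * n + 2)) (fun n => g (2 * n + 2)) := by
  have es : ∀ i : Edge, (sh (m+1) (-(m+1))).symm i = (i.1 - (m+1), i.2.1 - (-(m+1)), i.2.2) :=
    fun _ => rfl
  have hh' : ∀ n : ℤ, (h (2 * n + 2) : ℝ) = 1 - h (2 * n + 1) := by
    intro n
    have := hh (n+1)
    have e1 : 2 * (n + 1) = 2 * n + 2 := by ring
    have e2 : 2 * n + 2 - 1 = 2 * n + 1 := by ring
    rw [e1, e2] at this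
    rw [this, symm_val]
  have hg' : ∀ n : ℤ, (g (2 * n + 2) : ℝ) = 1 - g (2 * n + 1) := by
    intro n
    have := hg (n+1)
    have e1 : 2 * (n + 1) = 2 * n + 2 := by ring
    have e2 : 2 * n + 2 - 1 = 2 * n + 1 := by ring
    rw [e1, e2] at this
    rw [this, symm_val]
  -- the layer of an edge of the row `r` is `r + 1`
  have main : ∀ (f : ℤ → I) (i r : ℤ), (∀ n : ℤ, (f (2 * n + 2) : ℝ) = 1 - f (2 * n + 1)) →
      (((if (i + r) % 2 = 1 then σ (f (r + 1)) else f (r + 1) : I)) : ℝ) =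
        if i % 2 = 1 then (f (2 * (r / 2) + 2) : ℝ) else 1 - f (2 * (r / 2) + 2) := by
    intro f i r hf
    rcases Int.emod_two_eq_zero_or_one r with hr | hr
    · have e : r + 1 = 2 * (r / 2) + 1 := by omega
      rw [e, hf (r/2)]
      by_cases hi : i % 2 = 1
      · rw [if_pos (by omega), if_pos hi, symm_val]
      · rw [if_neg (by omega), if_neg hi]
        ring
    · have e : r + 1 = 2 * (r / 2) + 2 := by omega
      rw [e]
      by_cases hi : i % 2 = 1
      · rw [if_neg (by omega), if_pos hi]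
      · rw [if_pos (by omega), if_neg hi, symm_val]
  constructor
  · intro i r h1 h2 h3
    rw [← main h i r hh']
    congr 1
    unfold edgeOf
    split_ifs with c1
    · simp only [es, pTG, ↓reduceIte, Bool.false_eq_true]
      rw [if_neg (by omega)]
      congr 2
      omega
    · simp only [es, pTG, ↓reduceIte, Bool.false_eq_true]
      rw [if_neg (by omega)]
      congr 1
      omega
  · intro i r h1 h2 h3
    push_cast at h2
    rw [← main h i r hh']
    congr 1
    unfold edgeOf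
    split_ifs with c1
    · simp only [es, pTG, ↓reduceIte, Bool.false_eq_true]
      rw [if_neg (by omega)]
      congr 2
      omega
    · simp only [es, pTG, ↓reduceIte, Bool.false_eq_true]
      rw [if_neg (by omega)]
      congr 1
      omega
  · intro i r h1 h2 h3
    push_cast at h1
    rw [← main g i r hg']
    congr 1
    unfold edgeOf
    split_ifs with c1
    · simp only [es, pTG, ↓reduceIte, Bool.false_eq_true]
      rw [if_pos (by omega)]
      congr 2
      omega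
    · simp only [es, pTG, ↓reduceIte, Bool.false_eq_true]
      rw [if_pos (by omega)]
      congr 1
      omega

theorem hit_pre (m k : ℕ) : Hit (2*m+2) (2*k+2) =
    (fun ω : Conf => fun i => ω ((sh (m+1) (-(m+1))).symm i)) ⁻¹' HitT (2*m+2) (2*k+1) := by
  have hc : (2*m+2)/2 = m+1 := by omega
  have hstep : ∀ (ω : Conf) (x y : ℤ × ℤ), SAdj (2*m+2) (2*k+2) ω x y ↔
      HAdj (2*m+2) (2*k+1) (fun i => ω ((sh (m+1) (-(m+1))).symm i)) (x.1 + (m+1), x.2 + (-(m+1)))
        (y.1 + (m+1), y.2 + (-(m+1))) := by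
    intro ω x y
    unfold SAdj SlitAdj HAdj TipAdj
    rw [openAdj_sh]
    simp only
    push_cast
    constructor
    · rintro ⟨⟨e1, e2⟩, e3, e4, e5, e6⟩
      exact ⟨⟨e1, by omega, by omega, by omega⟩, by omega, by omega⟩
    · rintro ⟨⟨e1, e2, e3, e4⟩, e5, e6⟩
      exact ⟨⟨e1, by omega⟩, by omega, by omega, by omega, by omega⟩
  have et : tip (2*m+2) = ((1:ℤ) + (m+1), (0:ℤ) + (-(m+1))) := by
    unfold tip
    rw [hc]
    ext
    · push_cast; ring
    · push_cast; ring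
  ext ω
  constructor
  · rintro ⟨y, h3, h4⟩
    refine ⟨(y.1 + (m+1), y.2 + (-(m+1))), ?_, ?_⟩
    · simp only
      push_cast at h3 ⊢
      omega
    · rw [et]
      exact h4.lift (fun z : ℤ × ℤ => (z.1 + ((m:ℤ)+1), z.2 + (-((m:ℤ)+1))))
        fun p q hpq => (hstep ω p q).mp hpq
  · rintro ⟨y, h3, h4⟩
    refine ⟨(y.1 - (m+1), y.2 - (-(m+1))), ?_, ?_⟩
    · simp only
      push_cast at h3 ⊢
      omega
    · have h5 : Relation.ReflTransGen (SAdj (2*m+2) (2*k+2) ω)
          ((tip (2*m+2)).1 - ((m:ℤ)+1), (tip (2*m+2)).2 - (-((m:ℤ)+1)))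
          (y.1 - ((m:ℤ)+1), y.2 - (-((m:ℤ)+1))) :=
        h4.lift (p := SAdj (2*m+2) (2*k+2) ω)
        (fun z : ℤ × ℤ => (z.1 - ((m:ℤ)+1), z.2 - (-((m:ℤ)+1)))) (fun p q hpq => by
          show SAdj (2*m+2) (2*k+2) ω (p.1 - ((m:ℤ)+1), p.2 - (-((m:ℤ)+1)))
            (q.1 - ((m:ℤ)+1), q.2 - (-((m:ℤ)+1)))
          rw [hstep]
          simpa using hpq)
      have e : ((tip (2*m+2)).1 - ((m:ℤ)+1), (tip (2*m+2)).2 - (-((m:ℤ)+1))) = ((1:ℤ), (0:ℤ)) := by
        rw [et]
        ext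
        · simp only; ring
        · simp only; ring
      rw [e] at h5
      exact h5

/-- **the exact value in all layered environments** -/
theorem hitP_exact {h g : ℤ → I} (hn : NonT h g) {p r : ℕ} (hp : Even p) (hp0 : 0 < p)
    (hr : Even r) (hr0 : 0 < r) : (percP (pTG h g)).real (Hit p r) = hitVal p r := by
  obtain ⟨i, hi⟩ := hp
  obtain ⟨m, rfl⟩ : ∃ m, i = m + 1 := ⟨i - 1, by omega⟩
  obtain rfl : p = 2*m+2 := by omega
  obtain ⟨j, hj⟩ := hr
  obtain ⟨k, rfl⟩ : ∃ k, j = k + 1 := ⟨j - 1, by omega⟩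
  obtain rfl : r = 2*k+2 := by omega
  have h1 := hitT_P (lay_T m (2*k+1+1) h g hn.h_pair hn.g_pair) (elP_T hn.h_down) (elF_T hn.h_up)
    (elF_T hn.g_up)
  have h2 := percP_map (sh (m+1) (-(m+1))) (fun i => pTG h g ((sh (m+1) (-(m+1))).symm i))
    (HitT (2*m+2) (2*k+1))
  simp only [Equiv.symm_apply_apply] at h2
  rw [hit_pre, h2, h1, hit_closed]

theorem fr_zero : Tendsto (fun n : ℕ => fr n) atTop (𝓝 0) := by
  have h1 := fr_asymp (fun n => n) tendsto_id
  have h2 : Tendsto (fun n : ℕ => (n:ℝ)^((1:ℝ)/6)) atTop atTop :=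
    (tendsto_rpow_atTop (by norm_num)).comp tendsto_natCast_atTop_atTop
  refine (h1.div_atTop h2).congr' ?_
  filter_upwards [eventually_gt_atTop 0] with n hn
  have : (0:ℝ) < (n:ℝ)^((1:ℝ)/6) := Real.rpow_pos_of_pos (by exact_mod_cast hn) _
  field_simp

theorem fr_succ (n : ℕ) : fr (n+1) = fr n * ((1/3 + n) / (1/2 + n)) := by
  unfold fr
  rw [rising_succ, rising_succ]
  have h1 := (rising_pos (by norm_num : (0:ℝ) < 1/2) n).ne'
  have h2 : (1/2 + (n:ℝ)) ≠ 0 := by positivity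
  field_simp

theorem fr_ratio (p : ℕ) : Tendsto (fun n : ℕ => fr n / fr (n + p)) atTop (𝓝 1) := by
  induction p with
  | zero =>
    refine tendsto_const_nhds.congr fun n => ?_
    rw [add_zero, div_self (fr_pos n).ne']
  | succ p ih =>
    have h1 : Tendsto (fun n : ℕ => ((1/2 + ((n + p : ℕ):ℝ)) / (1/3 + ((n + p : ℕ):ℝ)))) atTop
        (𝓝 1) := by
      have h2 : Tendsto (fun n : ℕ => (1/3 + ((n + p : ℕ):ℝ))) atTop atTop :=
        tendsto_atTop_add_const_left _ _ (tendsto_natCast_atTop_atTop.comp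
          (tendsto_atTop_mono (fun n => Nat.le_add_right n p) tendsto_id))
      have h3 : Tendsto (fun n : ℕ => 1 + (1/6 : ℝ) / (1/3 + ((n + p : ℕ):ℝ))) atTop (𝓝 (1 + 0)) :=
        tendsto_const_nhds.add (tendsto_const_nhds.div_atTop h2)
      rw [add_zero] at h3
      refine h3.congr fun n => ?_
      have : (1/3 + ((n + p : ℕ):ℝ)) ≠ 0 := by positivity
      field_simp
      ring
    have h4 := ih.mul h1
    rw [one_mul] at h4
    refine h4.congr fun n => ?_
    rw [← add_assoc, fr_succ (n + p)]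
    have a1 := (fr_pos (n+p)).ne'
    have a2 : (1/3 + ((n + p : ℕ):ℝ)) ≠ 0 := by positivity
    have a3 : (1/2 + ((n + p : ℕ):ℝ)) ≠ 0 := by positivity
    field_simp

theorem two_mul_tendsto : Tendsto (fun n : ℕ => 2 * n) atTop atTop :=
  tendsto_atTop_mono (fun n => by simp only [id]; omega) tendsto_id

/-- `F(p) F(r) / F(p+r) → F(p)` as `r → ∞` -/
theorem hitVal_lim (p : ℕ) : Tendsto (fun n : ℕ => hitVal p (2 * n)) atTop (𝓝 (fr p)) := by
  have h := ((fr_ratio p).comp two_mul_tendsto).const_mul (fr p)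
  rw [mul_one] at h
  refine h.congr fun n => ?_
  unfold hitVal
  simp only [Function.comp_apply]
  rw [add_comm p, mul_div_assoc]

theorem hitVal_symm (p r : ℕ) : hitVal p r = hitVal r p := by
  unfold hitVal
  rw [mul_comm, add_comm]

theorem leftP_leP {h g : ℤ → I} (hn : NonT h g) {p : ℕ} (hp : Even p) (hp0 : 0 < p) :
    (percP (pTG h g)).real (LeftP p) ≤ fr p := by
  refine ge_of_tendsto (hitVal_lim p) ?_
  filter_upwards [eventually_ge_atTop 1] with n hn1
  rw [← hitP_exact hn hp hp0 (even_two_mul n) (by omega), ← hit_plane]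
  exact measureReal_mono Set.subset_union_left

theorem plane_leP {h g : ℤ → I} (hn : NonT h g) {r : ℕ} (hr : Even r) (hr0 : 0 < r) :
    (percP (pTG h g)).real (PlaneArm r) ≤ fr r := by
  refine ge_of_tendsto (hitVal_lim r) ?_
  filter_upwards [eventually_ge_atTop 1] with n hn1
  rw [hitVal_symm, ← hitP_exact hn (even_two_mul n) (by omega) hr hr0, ← hit_plane]
  exact measureReal_mono Set.subset_union_right

theorem planeP_exact {h g : ℤ → I} (hn : NonT h g) {r : ℕ} (hr : Even r) (hr0 : 0 < r) :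
    (percP (pTG h g)).real (PlaneArm r) = fr r := by
  refine le_antisymm (plane_leP hn hr hr0) ?_
  have h1 : Tendsto (fun n : ℕ => hitVal r (2 * n) - fr (2 * n)) atTop (𝓝 (fr r - 0)) :=
    (hitVal_lim r).sub (fr_zero.comp two_mul_tendsto)
  rw [sub_zero] at h1
  refine le_of_tendsto h1 ?_
  filter_upwards [eventually_ge_atTop 1] with n hn1
  have h2 := hitP_exact hn (even_two_mul n) (by omega) hr hr0
  rw [← hit_plane] at h2
  have h3 := measureReal_union_le (μ := percP (pTG h g)) (LeftP (2 * n)) (PlaneArm r)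
  have h4 := leftP_leP hn (even_two_mul n) (by omega)
  rw [hitVal_symm]
  linarith

theorem leftP_exact {h g : ℤ → I} (hn : NonT h g) {p : ℕ} (hp : Even p) (hp0 : 0 < p) :
    (percP (pTG h g)).real (LeftP p) = fr p := by
  refine le_antisymm (leftP_leP hn hp hp0) ?_
  have h1 : Tendsto (fun n : ℕ => hitVal p (2 * n) - fr (2 * n)) atTop (𝓝 (fr p - 0)) :=
    (hitVal_lim p).sub (fr_zero.comp two_mul_tendsto)
  rw [sub_zero] at h1
  refine le_of_tendsto h1 ?_
  filter_upwards [eventually_ge_atTop 1] with n hn1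
  have h2 := hitP_exact hn hp hp0 (even_two_mul n) (by omega)
  rw [← hit_plane] at h2
  have h3 := measureReal_union_le (μ := percP (pTG h g)) (LeftP p) (PlaneArm (2 * n))
  have h4 := plane_leP hn (even_two_mul n) (by omega)
  linarith

/-- **the joint law of the extents in all layered environments** -/
theorem jointP_exact {h g : ℤ → I} (hn : NonT h g) {p r : ℕ} (hp : Even p) (hp0 : 0 < p)
    (hr : Even r) (hr0 : 0 < r) :
    (percP (pTG h g)).real (LeftP p ∩ PlaneArm r) = fr p + fr r - hitVal p r := by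
  have h1 := measureReal_union_add_inter (μ := percP (pTG h g)) (s := LeftP p) (plane_meas r)
  rw [hit_plane, hitP_exact hn hp hp0 hr hr0, leftP_exact hn hp hp0, planeP_exact hn hr hr0] at h1
  linarith

end Pool.Agent.H29.LE
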