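import Pool.Agent.H29.LE.Law
import Pool.Agent.H29.EU.State
import Pool.Agent.H29.TW.Strip

/-!
The event that the tip is joined to the walls, in layered environments.
-/

set_option autoImplicit false

namespace Pool.Agent.H29.LE

open Pool.Agent.H988R2.Perc hiding X
open Pool.Agent.H981R2.TP
open Pool.Agent.H988R2.Perc.T23 (bits SS mem_SS)
open Pool.Agent.H29.TW hiding fr
open Q292.Env (percP Lay cP cF bp wt wt_eq percP_cyl p_eP p_eF ElP ElF pastProd futProd perc_eq_percP)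
open MeasureTheory Finset Filter Topology unitInterval ProbabilityTheory

theorem p_eR4 {a b : ℕ} {p : Edge → I} {y0 y1 y2 : ℤ → I} (hp : Lay a (b+1) p y0 y1 y2)
    (ha : Even a) (M : ℕ) (j : ℕ × ℕ) (hj : j ∈ SS b M) :
    (p (C8.eR a M j) : ℝ) = bp (cF y2 M (j.1 / 2)) j.2 := by
  rw [mem_SS] at hj
  unfold C8.eR bp cF
  rw [hp.right _ _ (by omega) (by push_cast; omega) (by omega)]
  have e1 : (2 * (M : ℤ) - 1 - j.1) / 2 = (M : ℤ) - 1 - ((j.1 / 2 : ℕ) : ℤ) := by omega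
  rw [e1]
  have ha2 : a % 2 = 0 := Nat.even_iff.mp ha
  have e2 : (((j.2 : ℤ) + (a + 2)) % 2 = 1) ↔ (j.2 % 2 = 1) := by omega
  simp only [e2]

theorem percP_cell4 {a b : ℕ} {p : Edge → I} {y0 y1 y2 : ℤ → I} (hp : Lay a (b+1) p y0 y1 y2)
    (ha : Even a) (M : ℕ) (p0 p1 p2 : Finset (ℕ × ℕ)) (h0 : p0 ⊆ SS (a+b+2) M) (h1 : p1 ⊆ SS a M)
    (h2 : p2 ⊆ SS b M) :
    (percP p).real (cell4 a b M p0 p1 p2) = wt (cP y0 M) (SS (a+b+2) M) p0 *
      wt (cF y1 M) (SS a M) p1 * wt (cF y2 M) (SS b M) p2 := by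
  rw [C8.cell4_eq a b M p0 p1 p2 h0 h1 h2, percP_cyl p _ (C8.ee3_inj a b M)]
  rw [Fintype.prod_sum_type, Fintype.prod_sum_type, wt_eq, wt_eq, wt_eq]
  congr 1
  · congr 1
    · refine Finset.prod_congr rfl fun j _ => ?_
      simp only [C8.ee3, C8.bb3]
      rw [p_eP hp M j.1 (by
        have := j.2
        rw [mem_SS] at this ⊢
        omega)]
      try congr
    · refine Finset.prod_congr rfl fun j _ => ?_
      simp only [C8.ee3, C8.bb3]
      rw [p_eF hp M j.1 j.2]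
      try congr
  · refine Finset.prod_congr rfl fun j _ => ?_
    simp only [C8.ee3, C8.bb3]
    rw [p_eR4 hp ha M j.1 j.2]
    try congr

open Classical in
theorem sum_goodF' (a b M : ℕ) (w0 w1 w2 : Finset (ℕ × ℕ) → ℂ) :
    (∑ t0 ∈ (SS (a+b+2) M).powerset, ∑ t1 ∈ (SS a M).powerset,
        ∑ t2 ∈ (SS b M).powerset,
        (if conn4 a b (Pool.Agent.H988R2.Perc.X (a+b+2) (actBit (force (bits t0))) M)
          (Pool.Agent.H988R2.Perc.X a (actBit (force (bits t1))) M)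
          (Pool.Agent.H988R2.Perc.X b (actBit (bits t2)) M) then w0 t0 * w1 t1 * w2 t2 else 0)) =
      ∑ p ∈ goodF a b M, w0 p.1 * w1 p.2.1 * w2 p.2.2 := by
  unfold goodF
  rw [Finset.sum_filter, Finset.sum_product]
  refine Finset.sum_congr rfl fun t0 _ => ?_
  rw [Finset.sum_product]

/-- the probability of the window event with open edges between the columns `0` and `1` -/
theorem percP_winF {a b : ℕ} {p : Edge → I} {y0 y1 y2 : ℤ → I} (hp : Lay a (b+1) p y0 y1 y2)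
    (ha : Even a) (M : ℕ) :
    (((percP p).real (WinF a b M) : ℝ) : ℂ) =
      EU.pairG (conn4 a b) (lawG (a+b+2) (cP y0 M) M) (lawG a (cF y1 M) M)
        (Q292.Env.lawY b (cF y2 M) M) := by
  rw [law_eqG, law_eqG, Q292.Env.law_eqY, EU.pairG_sum, sum_goodF', winF_eq,
    measureReal_biUnion_finset]
  · push_cast
    refine Finset.sum_congr rfl fun p hp' => ?_
    obtain ⟨⟨h1, h2, h3⟩, _⟩ := mem_goodF.1 hp'
    rw [percP_cell4 hp ha M _ _ _ h1 h2 h3]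
    push_cast
    rfl
  · intro p _ p' _ hne
    rw [Function.onFun, Set.disjoint_left]
    rintro ω ⟨h1, h2, h3⟩ ⟨h4, h5, h6⟩
    exact hne (Prod.ext (h1.symm.trans h4) (Prod.ext (h2.symm.trans h5) (h3.symm.trans h6)))
  · intro p hp'
    obtain ⟨⟨h1, h2, h3⟩, _⟩ := mem_goodF.1 hp'
    exact (t_C8 a b M p.1 p.2.1 p.2.2 h1 h2 h3).1

theorem winF_tendsto {m k : ℕ} {p : Edge → I} {y0 y1 y2 : ℤ → I}
    (hp : Lay (2*m+2) (2*k+1+1) p y0 y1 y2) (h0 : ElP y0) (h1 : ElF y1) (h2 : ElF y2) :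
    Tendsto (fun M => (((percP p).real (WinF (2*m+2) (2*k+1) M) : ℝ) : ℂ)) atTop
      (𝓝 (EU.pairG (conn4 (2*m+2) (2*k+1)) (nW (m+k+1)) (nL m) (Q292.Env.sv (2*k+1)))) := by
  have cP01 : ∀ (y : ℤ → I) M j, cP y M j ∈ Set.Icc (0:ℝ) 1 := fun y M j => (y _).2
  have cF01 : ∀ (y : ℤ → I) M j, cF y M j ∈ Set.Icc (0:ℝ) 1 := fun y M j => (y _).2
  have e : 2*m+2+(2*k+1)+2 = 2*(m+k+1)+3 := by ring
  refine (EU.pairG_tendsto _
    (law_nW (m+k+1) (by omega) (fun M => cP y0 M) (cP01 y0) (pastProd y0 h0 _))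
    (law_nL m (fun M => cF y1 M) (cF01 y1) (futProd y1 h1 _))
    (Q292.Env.law_tendsto (2*k+1) ⟨k, rfl⟩ (fun M => cF y2 M) (cF01 y2)
      (futProd y2 h2 _))).congr fun M => ?_
  rw [percP_winF hp ⟨m+1, by ring⟩ M, e]

theorem winF_mono (m k : ℕ) : Monotone (WinF (2*m+2) (2*k+1)) := fun M M' hM ω h =>
  C14.winT_mono s_C4 s_C5 ⟨m+1, by ring⟩ ⟨k, rfl⟩ hM h

theorem winF_union (m k : ℕ) : ⋃ M, WinF (2*m+2) (2*k+1) M = ArmF (2*m+2) (2*k+1) := by
  ext ω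
  rw [Set.mem_iUnion]
  have h := C14.iUnion_winT s_C4 s_C5 t_C6 t_C7 (a := 2*m+2) (b := 2*k+1) ⟨m+1, by ring⟩ ⟨k, rfl⟩
  show (∃ M, opn ω ∈ WinT (2*m+2) (2*k+1) M) ↔ opn ω ∈ TipArm (2*m+2) (2*k+1)
  rw [← h, Set.mem_iUnion]

theorem measurableSet_winF (a b M : ℕ) : MeasurableSet (WinF a b M) := by
  rw [winF_eq]
  refine Finset.measurableSet_biUnion _ fun p hp => ?_
  obtain ⟨⟨h1, h2, h3⟩, _⟩ := mem_goodF.1 hp
  exact (t_C8 a b M p.1 p.2.1 p.2.2 h1 h2 h3).1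

theorem measurableSet_armF (m k : ℕ) : MeasurableSet (ArmF (2*m+2) (2*k+1)) := by
  rw [← winF_union]
  exact MeasurableSet.iUnion fun M => measurableSet_winF _ _ M

theorem armF_lim {m k : ℕ} {p : Edge → I} {y0 y1 y2 : ℤ → I}
    (hp : Lay (2*m+2) (2*k+1+1) p y0 y1 y2) (h0 : ElP y0) (h1 : ElF y1) (h2 : ElF y2) :
    (((percP p).real (ArmF (2*m+2) (2*k+1)) : ℝ) : ℂ) =
      EU.pairG (conn4 (2*m+2) (2*k+1)) (nW (m+k+1)) (nL m) (Q292.Env.sv (2*k+1)) := by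
  have e1 : Tendsto (fun M => (percP p).real (WinF (2*m+2) (2*k+1) M)) atTop
      (𝓝 ((percP p).real (ArmF (2*m+2) (2*k+1)))) := by
    have h1 : Tendsto (fun M => percP p (WinF (2*m+2) (2*k+1) M)) atTop
        (𝓝 (percP p (⋃ M, WinF (2*m+2) (2*k+1) M))) := tendsto_measure_iUnion_atTop (winF_mono m k)
    rw [winF_union] at h1
    exact (ENNReal.tendsto_toReal (measure_ne_top (percP p) _)).comp h1
  have e2 := (Complex.continuous_ofReal.tendsto _).comp e1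
  exact tendsto_nhds_unique e2 (winF_tendsto hp h0 h1 h2)

/-- **the probability is the same in all layered environments** -/
theorem percP_armF {m k : ℕ} {p : Edge → I} {y0 y1 y2 : ℤ → I}
    (hp : Lay (2*m+2) (2*k+1+1) p y0 y1 y2) (h0 : ElP y0) (h1 : ElF y1) (h2 : ElF y2) :
    (percP p).real (ArmF (2*m+2) (2*k+1)) = hitFormula (2*m+2) (2*k+1) := by
  rw [← armF_exact]
  have e1 := armF_lim hp h0 h1 h2
  have e2 := armF_lim (m := m) (k := k) (EU.lay_half (2*m+2) (2*k+1+1)) EU.elP_half EU.elF_half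
    EU.elF_half
  rw [← perc_eq_percP] at e2
  exact_mod_cast e1.trans e2.symm

end Pool.Agent.H29.LE
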