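import Pool.Agent.H29.LE.Nat

/-!
The scaling limits in all layered environments.
-/

set_option autoImplicit false

namespace Pool.Agent.H29.LE

open Pool.Agent.H988R2.Perc hiding X
open Pool.Agent.H981R2.TP
open Pool.Agent.H981R2.TP.PL
open Pool.Agent.H29.TW
open Pool.Agent.R966.Tip
open Q292.Env (percP)
open MeasureTheory Finset Filter Topology unitInterval ProbabilityTheory

theorem hitP_asymp {h g : ℤ → I} (hn : NonT h g) (p r : ℕ → ℕ) (tp : Tendsto p atTop atTop)
    (tr : Tendsto r atTop atTop) :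
    Tendsto (fun n => (percP (pTG h g)).real (Hit (p n) (r n)) *
      ((p n : ℝ) * r n / (p n + r n))^((1:ℝ)/6)) atTop
      (𝓝 (Real.sqrt Real.pi / Real.Gamma (1/3))) := by
  have hl := hit_ratio (p' := fun n => 2*((p n + 1)/2)) (r' := fun n => 2*((r n+1)/2)) tp tr
    (fun n => by
      have e : |(((2*((p n + 1)/2) : ℕ) : ℤ) : ℤ) - (p n : ℤ)| ≤ 1 := by
        rw [abs_le]; omega
      exact_mod_cast e)
    (fun n => by
      have e : |(((2*((r n + 1)/2) : ℕ) : ℤ) : ℤ) - (r n : ℤ)| ≤ 1 := by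
        rw [abs_le]; omega
      exact_mod_cast e)
  have hu := hit_ratio (p' := fun n => 2*(p n /2)) (r' := fun n => 2*(r n/2)) tp tr
    (fun n => by
      have e : |(((2*(p n/2) : ℕ) : ℤ) : ℤ) - (p n : ℤ)| ≤ 1 := by
        rw [abs_le]; omega
      exact_mod_cast e)
    (fun n => by
      have e : |(((2*(r n/2) : ℕ) : ℤ) : ℤ) - (r n : ℤ)| ≤ 1 := by
        rw [abs_le]; omega
      exact_mod_cast e)
  refine tendsto_of_tendsto_of_tendsto_of_le_of_le' hl hu ?_ ?_
  · filter_upwards [tp.eventually_ge_atTop 2, tr.eventually_ge_atTop 2] with n n1 n2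
    refine mul_le_mul_of_nonneg_right ?_ (by positivity)
    rw [← hitP_exact hn (p := 2*((p n + 1)/2)) (r := 2*((r n+1)/2))
      (even_two_mul _) (by omega) (even_two_mul _) (by omega)]
    exact measureReal_mono (hit_anti (by omega) (by omega))
  · filter_upwards [tp.eventually_ge_atTop 2, tr.eventually_ge_atTop 2] with n n1 n2
    refine mul_le_mul_of_nonneg_right ?_ (by positivity)
    rw [← hitP_exact hn (p := 2*(p n/2)) (r := 2*(r n/2))
      (even_two_mul _) (by omega) (even_two_mul _) (by omega)]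
    exact measureReal_mono (hit_anti (by omega) (by omega))

theorem hitP_scale {h g : ℤ → I} (hn : NonT h g) {α β : ℝ} (hα : 0 < α) (hβ : 0 < β) (δ : ℕ → ℝ)
    (p r : ℕ → ℕ) (hδ : ∀ n, 0 < δ n) (hδ0 : Tendsto δ atTop (𝓝 0))
    (hp : Tendsto (fun n => δ n * p n) atTop (𝓝 α)) (hr : Tendsto (fun n => δ n * r n) atTop (𝓝 β)) :
    Tendsto (fun n => (percP (pTG h g)).real (Hit (p n) (r n)) * (δ n)^(-((1:ℝ)/6))) atTop
      (𝓝 (√Real.pi / Real.Gamma (1/3) * ((α + β) / (α * β))^((1:ℝ)/6))) := by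
  have hinv : Tendsto (fun n => (δ n)⁻¹) atTop atTop :=
    (tendsto_nhdsWithin_iff.mpr ⟨hδ0, Eventually.of_forall hδ⟩).inv_tendsto_nhdsGT_zero
  have tp : Tendsto p atTop atTop := by
    rw [← tendsto_natCast_atTop_iff (R := ℝ)]
    refine (hinv.atTop_mul_pos hα hp).congr fun n => ?_
    rw [← mul_assoc, inv_mul_cancel₀ (hδ n).ne', one_mul]
  have tr : Tendsto r atTop atTop := by
    rw [← tendsto_natCast_atTop_iff (R := ℝ)]
    refine (hinv.atTop_mul_pos hβ hr).congr fun n => ?_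
    rw [← mul_assoc, inv_mul_cancel₀ (hδ n).ne', one_mul]
  have h1 := hitP_asymp hn p r tp tr
  have hab : 0 < α + β := add_pos hα hβ
  have h2 : Tendsto (fun n => ((δ n * p n + δ n * r n) / ((δ n * p n) * (δ n * r n)))^((1:ℝ)/6)) atTop
      (𝓝 (((α + β) / (α * β))^((1:ℝ)/6))) :=
    ((hp.add hr).div (hp.mul hr) (by positivity)).rpow_const (Or.inr (by norm_num))
  refine (h1.mul h2).congr' ?_
  filter_upwards [tp.eventually_gt_atTop 0, tr.eventually_gt_atTop 0] with n n1 n2
  have q1 : (0:ℝ) < p n := by exact_mod_cast n1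
  have q2 : (0:ℝ) < r n := by exact_mod_cast n2
  have q3 := hδ n
  rw [mul_assoc, ← Real.mul_rpow (by positivity) (by positivity), Real.rpow_neg q3.le,
    ← Real.inv_rpow q3.le]
  congr 2
  field_simp

theorem hitP_scale' {h g : ℤ → I} (hn : NonT h g) {α β : ℝ} (hα : 0 < α) (hβ : 0 < β) (δ : ℕ → ℝ)
    (p r : ℕ → ℕ) (hδ : ∀ n, 0 < δ n) (hδ0 : Tendsto δ atTop (𝓝 0))
    (hp : Tendsto (fun n => δ n * p n) atTop (𝓝 α)) (hr : Tendsto (fun n => δ n * r n) atTop (𝓝 β)) :
    Tendsto (fun n => (percP (pTG h g)).real (Hit (p n) (r n)) * (δ n)^(-((1:ℝ)/6))) atTop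
      (𝓝 (Acst * (kq α β / Real.pi)^(-((1:ℝ)/6)) *
        (α / (α + β) * (1 - α / (α + β)))^(-((1:ℝ)/3)))) := by
  rw [← lim_hit hα hβ]
  exact hitP_scale hn hα hβ δ p r hδ hδ0 hp hr

theorem plane_antiR {r r' : ℕ} (h : r ≤ r') : PlaneArm r' ⊆ PlaneArm r := plane_anti h

/-- the one-sided arm, all distances -/
theorem planeP_asymp {h g : ℤ → I} (hn : NonT h g) (r : ℕ → ℕ) (tr : Tendsto r atTop atTop) :
    Tendsto (fun n => (percP (pTG h g)).real (PlaneArm (r n)) * (r n : ℝ)^((1:ℝ)/6)) atTop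
      (𝓝 (Real.sqrt Real.pi / Real.Gamma (1/3))) := by
  have ratio : ∀ r' : ℕ → ℕ, (∀ n, |(r' n : ℝ) - r n| ≤ 1) →
      Tendsto (fun n => fr (r' n) * (r n : ℝ)^((1:ℝ)/6)) atTop
        (𝓝 (Real.sqrt Real.pi / Real.Gamma (1/3))) := by
    intro r' hr
    have cr : Tendsto (fun n => (r n : ℝ)) atTop atTop := tendsto_natCast_atTop_atTop.comp tr
    have tr' : Tendsto r' atTop atTop := by
      have : Tendsto (fun n => (r' n : ℝ)) atTop atTop := by
        refine tendsto_atTop_mono (f := fun n => (r n : ℝ) + (-1)) (fun n => ?_)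
          (tendsto_atTop_add_const_right _ _ cr)
        have := (abs_le.mp (hr n)).1
        linarith
      exact tendsto_natCast_atTop_iff.mp this
    have h0 := fr_asymp r' tr'
    have h2 := PL.ratio_one cr 1 hr
    have h4 := (h2.inv₀ one_ne_zero)
    have e4 : ((1:ℝ)⁻¹) = 1 := by norm_num
    rw [e4] at h4
    have h5 := h4.rpow_const (p := (1:ℝ)/6) (Or.inl one_ne_zero)
    rw [Real.one_rpow] at h5
    have h6 := h0.mul h5
    rw [mul_one] at h6
    refine h6.congr' ?_
    filter_upwards [tr.eventually_gt_atTop 0, tr'.eventually_gt_atTop 0] with n n2 n4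
    have q2 : (0:ℝ) < r n := by exact_mod_cast n2
    have q4 : (0:ℝ) < r' n := by exact_mod_cast n4
    rw [mul_assoc, ← Real.mul_rpow (by positivity) (by positivity)]
    congr 2
    field_simp
  have hl := ratio (fun n => 2*((r n+1)/2)) (fun n => by
      have e : |(((2*((r n + 1)/2) : ℕ) : ℤ) : ℤ) - (r n : ℤ)| ≤ 1 := by
        rw [abs_le]; omega
      exact_mod_cast e)
  have hu := ratio (fun n => 2*(r n/2)) (fun n => by
      have e : |(((2*(r n/2) : ℕ) : ℤ) : ℤ) - (r n : ℤ)| ≤ 1 := by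
        rw [abs_le]; omega
      exact_mod_cast e)
  refine tendsto_of_tendsto_of_tendsto_of_le_of_le' hl hu ?_ ?_
  · filter_upwards [tr.eventually_ge_atTop 2] with n n2
    refine mul_le_mul_of_nonneg_right ?_ (by positivity)
    rw [← planeP_exact hn (r := 2*((r n+1)/2)) (even_two_mul _) (by omega)]
    exact measureReal_mono (plane_anti (by omega))
  · filter_upwards [tr.eventually_ge_atTop 2] with n n2
    refine mul_le_mul_of_nonneg_right ?_ (by positivity)
    rw [← planeP_exact hn (r := 2*(r n/2)) (even_two_mul _) (by omega)]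
    exact measureReal_mono (plane_anti (by omega))

theorem leftP_asymp {h g : ℤ → I} (hn : NonT h g) (r : ℕ → ℕ) (tr : Tendsto r atTop atTop) :
    Tendsto (fun n => (percP (pTG h g)).real (LeftP (r n)) * (r n : ℝ)^((1:ℝ)/6)) atTop
      (𝓝 (Real.sqrt Real.pi / Real.Gamma (1/3))) := by
  have ratio : ∀ r' : ℕ → ℕ, (∀ n, |(r' n : ℝ) - r n| ≤ 1) →
      Tendsto (fun n => fr (r' n) * (r n : ℝ)^((1:ℝ)/6)) atTop
        (𝓝 (Real.sqrt Real.pi / Real.Gamma (1/3))) := by
    intro r' hr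
    have cr : Tendsto (fun n => (r n : ℝ)) atTop atTop := tendsto_natCast_atTop_atTop.comp tr
    have tr' : Tendsto r' atTop atTop := by
      have : Tendsto (fun n => (r' n : ℝ)) atTop atTop := by
        refine tendsto_atTop_mono (f := fun n => (r n : ℝ) + (-1)) (fun n => ?_)
          (tendsto_atTop_add_const_right _ _ cr)
        have := (abs_le.mp (hr n)).1
        linarith
      exact tendsto_natCast_atTop_iff.mp this
    have h0 := fr_asymp r' tr'
    have h2 := PL.ratio_one cr 1 hr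
    have h4 := (h2.inv₀ one_ne_zero)
    have e4 : ((1:ℝ)⁻¹) = 1 := by norm_num
    rw [e4] at h4
    have h5 := h4.rpow_const (p := (1:ℝ)/6) (Or.inl one_ne_zero)
    rw [Real.one_rpow] at h5
    have h6 := h0.mul h5
    rw [mul_one] at h6
    refine h6.congr' ?_
    filter_upwards [tr.eventually_gt_atTop 0, tr'.eventually_gt_atTop 0] with n n2 n4
    have q2 : (0:ℝ) < r n := by exact_mod_cast n2
    have q4 : (0:ℝ) < r' n := by exact_mod_cast n4
    rw [mul_assoc, ← Real.mul_rpow (by positivity) (by positivity)]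
    congr 2
    field_simp
  have hl := ratio (fun n => 2*((r n+1)/2)) (fun n => by
      have e : |(((2*((r n + 1)/2) : ℕ) : ℤ) : ℤ) - (r n : ℤ)| ≤ 1 := by
        rw [abs_le]; omega
      exact_mod_cast e)
  have hu := ratio (fun n => 2*(r n/2)) (fun n => by
      have e : |(((2*(r n/2) : ℕ) : ℤ) : ℤ) - (r n : ℤ)| ≤ 1 := by
        rw [abs_le]; omega
      exact_mod_cast e)
  refine tendsto_of_tendsto_of_tendsto_of_le_of_le' hl hu ?_ ?_
  · filter_upwards [tr.eventually_ge_atTop 2] with n n2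
    refine mul_le_mul_of_nonneg_right ?_ (by positivity)
    rw [← leftP_exact hn (p := 2*((r n+1)/2)) (even_two_mul _) (by omega)]
    exact measureReal_mono (leftP_anti (by omega))
  · filter_upwards [tr.eventually_ge_atTop 2] with n n2
    refine mul_le_mul_of_nonneg_right ?_ (by positivity)
    rw [← leftP_exact hn (p := 2*(r n/2)) (even_two_mul _) (by omega)]
    exact measureReal_mono (leftP_anti (by omega))

/-- the scaling limit of the joint tail of the two extents, in all layered environments -/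
theorem jointP_scale {h g : ℤ → I} (hn : NonT h g) {s t : ℝ} (hs : 0 < s) (ht : 0 < t)
    (δ : ℕ → ℝ) (a b : ℕ → ℕ)
    (hδ : ∀ n, 0 < δ n) (hδ0 : Tendsto δ atTop (𝓝 0))
    (ha : Tendsto (fun n => δ n * a n) atTop (𝓝 s)) (hb : Tendsto (fun n => δ n * b n) atTop (𝓝 t)) :
    Tendsto (fun n => (percP (pTG h g)).real (LeftP (a n) ∩ PlaneArm (b n)) *
      (δ n)^(-((1:ℝ)/6))) atTop
      (𝓝 (√Real.pi / Real.Gamma (1/3) *
        (s^(-((1:ℝ)/6)) + t^(-((1:ℝ)/6)) - ((s + t) / (s * t))^((1:ℝ)/6)))) := by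
  have hinv : Tendsto (fun n => (δ n)⁻¹) atTop atTop :=
    (tendsto_nhdsWithin_iff.mpr ⟨hδ0, Eventually.of_forall hδ⟩).inv_tendsto_nhdsGT_zero
  have tend : ∀ {s : ℝ} (_ : 0 < s) (a : ℕ → ℕ) (_ : Tendsto (fun n => δ n * a n) atTop (𝓝 s)),
      Tendsto a atTop atTop := by
    intro s hs a ha
    rw [← tendsto_natCast_atTop_iff (R := ℝ)]
    refine (hinv.atTop_mul_pos hs ha).congr fun n => ?_
    rw [← mul_assoc, inv_mul_cancel₀ (hδ n).ne', one_mul]
  have one : ∀ {s : ℝ} (_ : 0 < s) (a : ℕ → ℕ) (_ : Tendsto (fun n => δ n * a n) atTop (𝓝 s))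
      (P : ℕ → ℝ) (_ : Tendsto (fun n => P n * (a n : ℝ)^((1:ℝ)/6)) atTop
        (𝓝 (Real.sqrt Real.pi / Real.Gamma (1/3)))),
      Tendsto (fun n => P n * (δ n)^(-((1:ℝ)/6))) atTop
        (𝓝 (√Real.pi / Real.Gamma (1/3) * s^(-((1:ℝ)/6)))) := by
    intro s hs a ha P h1
    have ta := tend hs a ha
    have h2 : Tendsto (fun n => (δ n * a n)^(-((1:ℝ)/6))) atTop (𝓝 (s^(-((1:ℝ)/6)))) :=
      ha.rpow_const (Or.inl hs.ne')
    refine (h1.mul h2).congr' ?_
    filter_upwards [ta.eventually_gt_atTop 0] with n n1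
    have q1 : (0:ℝ) < a n := by exact_mod_cast n1
    have q3 := hδ n
    rw [Real.mul_rpow q3.le q1.le, mul_assoc]
    congr 1
    rw [Real.rpow_neg q1.le]
    have : 0 < (a n : ℝ)^((1:ℝ)/6) := Real.rpow_pos_of_pos q1 _
    field_simp
  have h1 := one hs a ha _ (leftP_asymp hn a (tend hs a ha))
  have h2 := one ht b hb _ (planeP_asymp hn b (tend ht b hb))
  have h3 := hitP_scale hn hs ht δ a b hδ hδ0 ha hb
  have h4 := (h1.add h2).sub h3
  rw [← mul_add, ← mul_sub] at h4
  refine h4.congr fun n => ?_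
  have h5 := measureReal_union_add_inter (μ := percP (pTG h g)) (s := LeftP (a n))
    (plane_meas (b n))
  rw [hit_plane] at h5
  linear_combination (-(δ n)^(-((1:ℝ)/6))) * h5

end Pool.Agent.H29.LE
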