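import Pool.Agent.H29.TW.Conv
import Pool.Graph.R_pool_sql_team_seeded_3997aac3.Q292.Env.Univ

/-!
Stationarity under the double row with an arbitrary spectral parameter and with the first tile open.
-/

set_option autoImplicit false

namespace Pool.Agent.H29.LE

open Pool.Agent.H988R2.Perc hiding X
open Pool.Agent.H29.TW (Psi_invL wL wW)
open Q292.Env (sp sp_ne sp_sub_ne tileY tileY_smul move_right move_left)
open Finset

/-- one tile; the tile `1` is open -/
noncomputable def tileG (y : ℝ) (i : ℕ) (f : St →₀ ℂ) : St →₀ ℂ :=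
  if i = 1 then Finsupp.mapDomain (St.act 1) f else tileY y i f

noncomputable def fwdG (y : ℝ) : ℕ → (St →₀ ℂ) → (St →₀ ℂ)
  | 0, f => f
  | L+1, f => tileG y (L+1) (fwdG y L f)

noncomputable def bwdG (y : ℝ) : ℕ → (St →₀ ℂ) → (St →₀ ℂ)
  | 0, f => f
  | L+1, f => bwdG y L (tileG y (L+1) f)

/-- the double-row transfer matrix with open first tiles -/
noncomputable def TG (L : ℕ) (y : ℝ) (f : St →₀ ℂ) : St →₀ ℂ :=
  Finsupp.mapDomain (St.cap 0) (bwdG y L (fwdG y L (Finsupp.mapDomain (St.ins 0) f)))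

theorem tileG_smul (y : ℝ) (i : ℕ) (c : ℂ) (f : St →₀ ℂ) : tileG y i (c • f) = c • tileG y i f := by
  unfold tileG
  split_ifs
  · exact Finsupp.mapDomain_smul c f
  · exact tileY_smul y i c f

theorem fwdG_smul (y : ℝ) (L : ℕ) (c : ℂ) (f : St →₀ ℂ) : fwdG y L (c • f) = c • fwdG y L f := by
  induction L with
  | zero => rfl
  | succ L ih => simp only [fwdG]; rw [ih, tileG_smul]

theorem bwdG_smul (y : ℝ) (L : ℕ) (c : ℂ) (f : St →₀ ℂ) : bwdG y L (c • f) = c • bwdG y L f := by
  induction L generalizing f with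
  | zero => rfl
  | succ L ih => simp only [bwdG]; rw [tileG_smul, ih]

theorem TG_smul (L : ℕ) (y : ℝ) (c : ℂ) (f : St →₀ ℂ) : TG L y (c • f) = c • TG L y f := by
  unfold TG
  rw [Finsupp.mapDomain_smul, fwdG_smul, bwdG_smul, Finsupp.mapDomain_smul]

theorem fac_cons (x z : ℂ) (l : List ℂ) :
    fac x (z :: l) = (x - q^2 * z) * (x * z - q^2) * fac x l := by
  unfold fac
  rw [List.map_cons, List.prod_cons]

theorem fac_c (s : ℂ) (hs : s ≠ 0) (l : List ℂ) (hl : ∀ z ∈ l, z = 0 ∨ z = 1) :
    (q^2 * s)^(l.length) * s^(l.length) * fac (q * s⁻¹) l = fac s l := by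
  have h3 := q_cube
  have hss : s * s⁻¹ = 1 := mul_inv_cancel₀ hs
  induction l with
  | nil => simp [fac]
  | cons z l ih =>
    have ih' := ih (fun w hw => hl w (List.mem_cons_of_mem _ hw))
    rw [fac_cons, fac_cons, List.length_cons, pow_succ (q^2 * s), pow_succ s, ← ih']
    have e : (q^2 * s * s) * ((q * s⁻¹ - q^2 * z) * (q * s⁻¹ * z - q^2)) =
        (s - q^2 * z) * (s * z - q^2) := by
      have e1 : s * (q * s⁻¹ - q^2 * z) = q * (1 - q * s * z) := by
        linear_combination q * hss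
      have e2 : s * (q * s⁻¹ * z - q^2) = q * (z - q * s) := by
        linear_combination q * z * hss
      calc (q^2 * s * s) * ((q * s⁻¹ - q^2 * z) * (q * s⁻¹ * z - q^2))
          = q^2 * (s * (q * s⁻¹ - q^2 * z)) * (s * (q * s⁻¹ * z - q^2)) := by ring
        _ = q^2 * (q * (1 - q * s * z)) * (q * (z - q * s)) := by rw [e1, e2]
        _ = (s - q^2 * z) * (s * z - q^2) := by
          rcases hl z (List.mem_cons_self) with hz | hz
          · subst hz
            linear_combination (-(q^2) * s) * h3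
          · subst hz
            have h4 : q^4 = q := T20.q4
            have h5 : q^5 = q^2 := by linear_combination q^2 * h3
            have h6 : q^6 = 1 := by linear_combination (q^3 + 1) * h3
            linear_combination h4 - 2 * s * h5 + s^2 * h6 - h4
    calc (q^2 * s)^l.length * (q^2 * s) * (s^l.length * s) *
          ((q * s⁻¹ - q^2 * z) * (q * s⁻¹ * z - q^2) * fac (q * s⁻¹) l)
        = ((q^2 * s * s) * ((q * s⁻¹ - q^2 * z) * (q * s⁻¹ * z - q^2))) *
          ((q^2 * s)^l.length * s^l.length * fac (q * s⁻¹) l) := by ring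
      _ = _ := by rw [e]

theorem fac_ne (y : ℝ) (l : List ℂ) (hl : ∀ z ∈ l, z = 0 ∨ z = 1) : fac (sp y) l ≠ 0 := by
  induction l with
  | nil => simp [fac]
  | cons z l ih =>
    rw [fac_cons]
    refine mul_ne_zero ?_ (ih (fun w hw => hl w (List.mem_cons_of_mem _ hw)))
    rcases hl z (List.mem_cons_self) with hz | hz
    · subst hz
      rw [mul_zero, mul_zero, sub_zero, zero_sub]
      exact mul_ne_zero (sp_ne y) (neg_ne_zero.mpr (pow_ne_zero _ q_ne_zero))
    · subst hz
      rw [mul_one, mul_one]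
      exact mul_ne_zero (sp_sub_ne y) (sp_sub_ne y)

theorem fwd_eqG (y : ℝ) (k : ℕ) (T : List ℂ) (hpar : Even (k + 1 + T.length)) (j : ℕ) (hj : j ≤ k)
    (v : St →₀ ℂ) (hv : Finsupp.mapDomain (St.act 1) v =
      Psi (0 :: sp y :: (q^2 * sp y) :: (List.replicate k 1 ++ T))) :
    fwdG y (j+1) v = Psi ((0 :: sp y :: List.replicate j 1) ++
      (q^2 * sp y) :: (List.replicate (k-j) 1 ++ T)) := by
  induction j with
  | zero =>
    simp only [fwdG, tileG, zero_add, if_true]
    rw [hv]
    rfl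
  | succ j ih =>
    have ih' := ih (by omega)
    show tileG y (j+1+1) (fwdG y (j+1) v) = _
    rw [ih']
    obtain ⟨m, hm⟩ : ∃ m, k - j = m + 1 := ⟨k - j - 1, by omega⟩
    have hm' : k - (j+1) = m := by omega
    rw [hm, hm']
    have hu : (0 :: sp y :: List.replicate j (1:ℂ)).length = j + 2 := by simp
    have key := move_right y (0 :: sp y :: List.replicate j (1:ℂ)) (List.replicate m 1 ++ T) (by
      simp only [List.length_cons, List.length_replicate, List.length_append]
      obtain ⟨t, ht⟩ := hpar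
      exact ⟨t, by omega⟩)
    rw [hu] at key
    have e1 : (0 :: sp y :: List.replicate (j+1) (1:ℂ)) ++ (q^2 * sp y) :: (List.replicate m 1 ++ T)
        = (0 :: sp y :: List.replicate j (1:ℂ)) ++ 1 :: (q^2 * sp y) :: (List.replicate m 1 ++ T) := by
      rw [List.replicate_succ']; simp
    have e2 : (0 :: sp y :: List.replicate j (1:ℂ)) ++ (q^2 * sp y) :: (List.replicate (m+1) 1 ++ T)
        = (0 :: sp y :: List.replicate j (1:ℂ)) ++ (q^2 * sp y) :: 1 :: (List.replicate m 1 ++ T) := by
      rw [List.replicate_succ]; simp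
    rw [e1, e2, key]
    unfold tileG
    rw [if_neg (by omega)]

theorem bwd_eqG (y : ℝ) (k : ℕ) (T : List ℂ) (hpar : Even (k + 1 + T.length)) (j : ℕ) (hj : j ≤ k) :
    bwdG y (j+1) (Psi ((0 :: sp y :: List.replicate j 1) ++
      (q * (sp y)⁻¹) :: (List.replicate (k-j) 1 ++ T))) =
      Finsupp.mapDomain (St.act 1)
        (Psi (0 :: sp y :: (q * (sp y)⁻¹) :: (List.replicate k 1 ++ T))) := by
  induction j with
  | zero =>
    simp only [bwdG, tileG, zero_add, if_true]
    rfl
  | succ j ih =>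
    have ih' := ih (by omega)
    show bwdG y (j+1) (tileG y (j+1+1) _) = _
    rw [← ih']
    congr 1
    obtain ⟨m, hm⟩ : ∃ m, k - j = m + 1 := ⟨k - j - 1, by omega⟩
    have hm' : k - (j+1) = m := by omega
    rw [hm, hm']
    have hu : (0 :: sp y :: List.replicate j (1:ℂ)).length = j + 2 := by simp
    have key := move_left y (0 :: sp y :: List.replicate j (1:ℂ)) (List.replicate m 1 ++ T) (by
      simp only [List.length_cons, List.length_replicate, List.length_append]
      obtain ⟨t, ht⟩ := hpar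
      exact ⟨t, by omega⟩)
    rw [hu] at key
    have e1 : (0 :: sp y :: List.replicate (j+1) (1:ℂ)) ++
          (q * (sp y)⁻¹) :: (List.replicate m 1 ++ T)
        = (0 :: sp y :: List.replicate j (1:ℂ)) ++ 1 :: (q * (sp y)⁻¹) ::
          (List.replicate m 1 ++ T) := by
      rw [List.replicate_succ']; simp
    have e2 : (0 :: sp y :: List.replicate j (1:ℂ)) ++
          (q * (sp y)⁻¹) :: (List.replicate (m+1) 1 ++ T)
        = (0 :: sp y :: List.replicate j (1:ℂ)) ++ (q * (sp y)⁻¹) :: 1 ::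
          (List.replicate m 1 ++ T) := by
      rw [List.replicate_succ]; simp
    rw [e1, e2, key]
    unfold tileG
    rw [if_neg (by omega)]

theorem inv_q2s (s : ℂ) : (q^2 * s)⁻¹ = q * s⁻¹ := by
  have hq := q_ne_zero
  rw [mul_inv]
  congr 1
  rw [inv_eq_iff_eq_inv]
  apply mul_right_cancel₀ hq
  rw [inv_mul_cancel₀ hq]
  linear_combination q_cube

theorem statG (y : ℝ) (k : ℕ) (T : List ℂ) (hT : T = [] ∨ T = [0]) (hpar : Even (k + 1 + T.length))
    (hinv : Psi ((0 :: sp y :: List.replicate k 1) ++ (q^2 * sp y) :: T) =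
      (q^2 * sp y)^(k + 1 + T.length) •
        Psi ((0 :: sp y :: List.replicate k 1) ++ (q * (sp y)⁻¹) :: T)) :
    TG (k+1) y (Psi (0 :: (List.replicate k 1 ++ T))) = Psi (0 :: (List.replicate k 1 ++ T)) := by
  set v0 := Psi (0 :: (List.replicate k 1 ++ T)) with hv0
  set l0 : List ℂ := List.replicate k 1 ++ T with hl0
  set s := sp y with hsdef
  have hlen : l0.length = k + T.length := by simp [hl0]
  have h01 : ∀ z ∈ (0 :: l0 : List ℂ), z = 0 ∨ z = 1 := by
    intro z hz
    rw [List.mem_cons, hl0, List.mem_append] at hz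
    rcases hz with h | h | h
    · exact Or.inl h
    · exact Or.inr (List.eq_of_mem_replicate h)
    · rcases hT with h' | h'
      · rw [h'] at h; simp at h
      · rw [h'] at h; left; simpa using h
  have h4 : q^4 = q := T20.q4
  have h3 := q_cube
  have hqs := q_spec
  have hq := q_ne_zero
  have hs : s ≠ 0 := sp_ne y
  have hparl : Even (([0] : List ℂ).length + l0.length) := by
    rw [hlen, List.length_singleton]
    convert hpar using 1
    ring
  -- recursion at the start
  have hrec : Psi (0 :: s :: (q^2 * s) :: l0) =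
      fac s (0 :: l0) • Finsupp.mapDomain (St.ins 1) v0 := by
    have := Psi_rec [0] l0 s hparl
    simpa using this
  have hins : Finsupp.mapDomain (St.act 1) (Finsupp.mapDomain (St.ins 0) v0) =
      Finsupp.mapDomain (St.ins 1) v0 := by
    rw [← Finsupp.mapDomain_comp]
    congr 1
    funext R
    exact St.act_succ_ins 0 R
  -- forward
  have hf := fwd_eqG y k T hpar k le_rfl (fac s (0 :: l0) • Finsupp.mapDomain (St.ins 0) v0) (by
    rw [Finsupp.mapDomain_smul, hins, ← hrec])
  rw [Nat.sub_self, List.replicate_zero, List.nil_append, ← hsdef, hinv] at hf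
  have hb := bwd_eqG y k T hpar k le_rfl
  rw [Nat.sub_self, List.replicate_zero, List.nil_append, ← hsdef] at hb
  -- inversion at the left wall
  have hinvL : Psi (0 :: s :: (q * s⁻¹) :: l0) =
      s^(k + 1 + T.length) • Psi (0 :: s⁻¹ :: (q * s⁻¹) :: l0) := by
    have := Psi_invL s ((q * s⁻¹) :: l0) hs (by
      rw [List.length_cons, hlen]
      convert hpar using 1
      ring)
    rw [List.length_cons, hlen] at this
    rw [this]
    congr 2
    ring
  -- exchange
  have hexch : Psi (0 :: (q * s⁻¹) :: s⁻¹ :: l0) =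
      Finsupp.mapDomain (St.act 1) (Psi (0 :: s⁻¹ :: (q * s⁻¹) :: l0)) := by
    have := Psi_exch [0] l0 (s⁻¹) (q * s⁻¹) hparl
    have e1 : q * s⁻¹ - q^2 * (q * s⁻¹) = (q - 1) * s⁻¹ := by linear_combination (-s⁻¹) * h3
    have e2 : q * (q * s⁻¹) - q^2 * s⁻¹ = 0 := by ring
    have e3 : (q * s⁻¹) - s⁻¹ = (q - 1) * s⁻¹ := by ring
    rw [e1, e2, e3, zero_smul, zero_add] at this
    have hne : (q - 1) * s⁻¹ ≠ 0 :=
      mul_ne_zero (sub_ne_zero.2 q_ne_one) (inv_ne_zero hs)
    have h5 := congrArg (fun f => ((q - 1) * s⁻¹)⁻¹ • f) this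
    simp only [smul_smul, inv_mul_cancel₀ hne, one_smul] at h5
    simpa using h5
  have hrec2 : Psi (0 :: (q * s⁻¹) :: s⁻¹ :: l0) =
      fac (q * s⁻¹) (0 :: l0) • Finsupp.mapDomain (St.ins 1) v0 := by
    have := Psi_rec [0] l0 (q * s⁻¹) hparl
    have e : q^2 * (q * s⁻¹) = s⁻¹ := by linear_combination s⁻¹ * h3
    rw [e] at this
    simpa using this
  have hcap : Finsupp.mapDomain (St.cap 0) (Finsupp.mapDomain (St.ins 1) v0) = v0 := by
    rw [← Finsupp.mapDomain_comp]
    have : St.cap 0 ∘ St.ins 1 = id := by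
      funext R
      apply St.ins_inj 0
      show St.ins 0 (St.cap 0 (St.ins 1 R)) = St.ins 0 R
      rw [← St.act_eq, St.act_ins_succ 0 R]
    rw [this, Finsupp.mapDomain_id]
  have hc := fac_c s hs (0 :: l0) h01
  have hlen2 : (0 :: l0 : List ℂ).length = k + 1 + T.length := by
    rw [List.length_cons, hlen]; ring
  rw [hlen2] at hc
  -- conclusion
  have hmain : fac s (0 :: l0) • TG (k+1) y v0 = fac s (0 :: l0) • v0 := by
    have h1 : fac s (0 :: l0) • TG (k+1) y v0 =
        Finsupp.mapDomain (St.cap 0) (bwdG y (k+1) (fwdG y (k+1)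
          (fac s (0 :: l0) • Finsupp.mapDomain (St.ins 0) v0))) := by
      unfold TG
      rw [fwdG_smul, bwdG_smul, Finsupp.mapDomain_smul]
    have h2 : Finsupp.mapDomain (St.act 1) (Psi (0 :: s :: (q * s⁻¹) :: l0)) =
        s^(k + 1 + T.length) • Psi (0 :: (q * s⁻¹) :: s⁻¹ :: l0) := by
      rw [hinvL, Finsupp.mapDomain_smul, ← hexch]
    rw [h1, hf, bwdG_smul, hb, ← hl0, h2, hrec2, smul_smul,
      smul_smul, Finsupp.mapDomain_smul, hcap, hc]
  have hne : fac s (0 :: l0) ≠ 0 := fac_ne y _ h01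
  have h5 := congrArg (fun f => (fac s (0 :: l0))⁻¹ • f) hmain
  simp only [smul_smul, inv_mul_cancel₀ hne, one_smul] at h5
  exact h5

/-- the vector of the strip of even width with wired left wall is stationary -/
theorem stat_wL (y : ℝ) (m : ℕ) : TG (2*m+2) y (wL (2*m+2)) = wL (2*m+2) := by
  have h := statG y (2*m+1) [] (Or.inl rfl) ⟨m+1, by simp; ring⟩ (by
    have := Psi_invN (q^2 * sp y) (0 :: sp y :: List.replicate (2*m+1) 1)
      (mul_ne_zero (pow_ne_zero _ q_ne_zero) (sp_ne y)) ⟨m+1, by simp; ring⟩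
    rw [inv_q2s] at this
    rw [this]
    congr 2
    simp)
  rw [List.append_nil] at h
  exact h

/-- the vector of the strip of odd width with both walls wired is stationary -/
theorem stat_wW (y : ℝ) (m : ℕ) : TG (2*m+3) y (wW (2*m+3)) = wW (2*m+3) := by
  exact statG y (2*m+2) [0] (Or.inr rfl) ⟨m+2, by simp; ring⟩ (by
    have := Psi_inv0 (q^2 * sp y) (0 :: sp y :: List.replicate (2*m+2) 1)
      (mul_ne_zero (pow_ne_zero _ q_ne_zero) (sp_ne y)) ⟨m+2, by simp; ring⟩
    rw [inv_q2s] at this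
    rw [this]
    congr 2
    simp)

end Pool.Agent.H29.LE
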