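import Pool.Agent.H29.LE.Perc

/-!
In a layered environment the event with open edges between the columns `0` and `1` is almost surely
the event that the tip is joined to one of the two walls.
-/

set_option autoImplicit false

namespace Pool.Agent.H29.LE

open Pool.Agent.H988R2.Perc hiding X
open Pool.Agent.H981R2.TP
open Pool.Agent.H29.TW hiding fr
open Q292.Env (percP Lay ElP ElF prod_tendsto_zero)
open MeasureTheory Finset Filter Topology unitInterval ProbabilityTheory

theorem indep_percP (p : Edge → I) :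
    ProbabilityTheory.iIndepFun (fun (e : Edge) (ω : Conf) => ω e) (percP p) := by
  unfold percP
  exact ProbabilityTheory.iIndepFun_infinitePi (X := fun _ b => b) (fun _ => measurable_id)

theorem percP_coord (p : Edge → I) (e : Edge) :
    (percP p).real ((fun ω : Conf => ω e) ⁻¹' {true}) = p e := by
  have h := Q292.Env.percP_cyl p (J := Unit) (fun _ => e) (fun _ _ _ => Subsingleton.elim _ _)
    (fun _ => true)
  simpa [Set.iInter_const] using h

theorem percP_all_open (p : Edge → I) (S : Finset Edge) :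
    (percP p).real {ω | ∀ e ∈ S, ω e = true} = ∏ e ∈ S, (p e : ℝ) := by
  have h := (indep_percP p).measure_inter_preimage_eq_mul S (sets := fun _ => {true})
    (fun _ _ => measurableSet_singleton _)
  have e1 : {ω : Conf | ∀ e ∈ S, ω e = true} = ⋂ e ∈ S, (fun ω : Conf => ω e) ⁻¹' {true} := by
    ext ω
    simp
  rw [e1, measureReal_def, h, ENNReal.toReal_prod]
  refine Finset.prod_congr rfl fun e _ => ?_
  rw [← measureReal_def, percP_coord]

theorem fail_succP (p : Edge → I) (R : ℕ → Finset Edge)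
    (hd : ∀ i j, i ≠ j → Disjoint (R i) (R j)) (N : ℕ) :
    (percP p).real (FailN R (N+1)) =
      (percP p).real (FailN R N) * (1 - ∏ e ∈ R N, (p e : ℝ)) := by
  classical
  set S : Finset Edge := (range N).biUnion R with hS
  have hdis : Disjoint S (R N) := by
    rw [hS, Finset.disjoint_biUnion_left]
    intro i hi
    exact hd i N (by rw [mem_range] at hi; omega)
  have hi := (indep_percP p).indepFun_finset S (R N) hdis (fun e => measurable_pi_apply e)
  have h1 := hi.measure_inter_preimage_eq_mul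
    {g : S → Bool | ∀ j < N, ∃ e : S, e.1 ∈ R j ∧ g e = false}
    {g : R N → Bool | ∃ e : R N, g e = false}
    (Set.toFinite _).measurableSet (Set.toFinite _).measurableSet
  have e1 : FailN R N = (fun (ω : Conf) (i : S) => ω i) ⁻¹'
      {g : S → Bool | ∀ j < N, ∃ e : S, e.1 ∈ R j ∧ g e = false} := by
    ext ω
    constructor
    · intro h j hj
      obtain ⟨e, he, h2⟩ := h j hj
      exact ⟨⟨e, by rw [hS, Finset.mem_biUnion]; exact ⟨j, mem_range.2 hj, he⟩⟩, he, h2⟩
    · intro h j hj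
      obtain ⟨e, he, h2⟩ := h j hj
      exact ⟨e.1, he, h2⟩
  have e2 : {ω : Conf | ∃ e ∈ R N, ω e = false} = (fun (ω : Conf) (i : R N) => ω i) ⁻¹'
      {g : R N → Bool | ∃ e : R N, g e = false} := by
    ext ω
    constructor
    · rintro ⟨e, he, h2⟩
      exact ⟨⟨e, he⟩, h2⟩
    · rintro ⟨e, h2⟩
      exact ⟨e.1, e.2, h2⟩
  have e3 : FailN R (N+1) = FailN R N ∩ {ω : Conf | ∃ e ∈ R N, ω e = false} := by
    ext ω
    constructor
    · intro h
      exact ⟨fun j hj => h j (by omega), h N (by omega)⟩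
    · rintro ⟨h1, h2⟩ j hj
      rcases Nat.lt_succ_iff_lt_or_eq.1 hj with h | h
      · exact h1 j h
      · rw [h]; exact h2
  have e4 : (percP p).real {ω : Conf | ∃ e ∈ R N, ω e = false} = 1 - ∏ e ∈ R N, (p e : ℝ) := by
    have e5 : {ω : Conf | ∃ e ∈ R N, ω e = false} = {ω : Conf | ∀ e ∈ R N, ω e = true}ᶜ := by
      ext ω
      simp only [Set.mem_compl_iff, Set.mem_ofPred_eq, not_forall, Bool.not_eq_true, exists_prop]
    rw [e5, probReal_compl_eq_one_sub (meas_open (R N)), percP_all_open]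
  rw [← e4, e3, e1, e2, measureReal_def, measureReal_def, measureReal_def, ← ENNReal.toReal_mul]
  congr 1

theorem real_failP (p : Edge → I) (R : ℕ → Finset Edge)
    (hd : ∀ i j, i ≠ j → Disjoint (R i) (R j)) (N : ℕ) :
    (percP p).real (FailN R N) = ∏ j ∈ range N, (1 - ∏ e ∈ R j, (p e : ℝ)) := by
  induction N with
  | zero =>
    have : FailN R 0 = Set.univ := by
      ext ω
      simp [FailN]
    rw [this, probReal_univ]
    simp
  | succ N ih => rw [fail_succP p R hd N, ih, prod_range_succ]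

/-- almost surely one of the sets is open -/
theorem fail_zeroP (p : Edge → I) (R : ℕ → Finset Edge)
    (hd : ∀ i j, i ≠ j → Disjoint (R i) (R j)) (δ : ℝ) (hδ : 0 < δ)
    (hf : ∃ᶠ j in atTop, δ ≤ ∏ e ∈ R j, (p e : ℝ)) :
    (percP p).real {ω | ∀ j, ∃ e ∈ R j, ω e = false} = 0 := by
  have h0 : ∀ j, 0 ≤ ∏ e ∈ R j, (p e : ℝ) := fun j => prod_nonneg fun e _ => (p e).2.1
  have h1 : ∀ j, ∏ e ∈ R j, (p e : ℝ) ≤ 1 := fun j =>
    prod_le_one (fun e _ => (p e).2.1) (fun e _ => (p e).2.2)
  have hδ1 : δ ≤ 1 := by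
    obtain ⟨j, hj⟩ := hf.exists
    exact hj.trans (h1 j)
  have ht := prod_tendsto_zero (fun j => 1 - ∏ e ∈ R j, (p e : ℝ)) δ hδ hδ1
    (fun j => by linarith [h1 j]) (fun j => by linarith [h0 j])
    (hf.mono fun j hj => by linarith)
  refine le_antisymm (ge_of_tendsto' ht fun N => ?_) measureReal_nonneg
  rw [← real_failP p R hd N]
  exact measureReal_mono (show {ω : Conf | ∀ j, ∃ e ∈ R j, ω e = false} ⊆ FailN R N from
    fun ω h j _ => h j)

/-- the edges of the row `r` between the columns `1` and `L` -/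
def zrow (L : ℕ) (r : ℤ) : Finset Edge := (range (L-1)).image fun i : ℕ => edgeOf ((i:ℤ) + 2) r

theorem zrow_disj (L : ℕ) {r r' : ℤ} (h : r ≠ r') : Disjoint (zrow L r) (zrow L r') := by
  rw [Finset.disjoint_left]
  intro e he he'
  unfold zrow at he he'
  rw [Finset.mem_image] at he he'
  obtain ⟨i, _, hi⟩ := he
  obtain ⟨j, _, hj⟩ := he'
  rw [← hj] at hi
  exact h (T23.edgeOf_inj hi).2

/-- no row below the tip is open -/
def BadZ (L : ℕ) : Set Conf := {ω | ∀ n : ℕ, ∃ e ∈ zrow L (2 * (-(n:ℤ) - 1)), ω e = false}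

theorem badZ_zero {a b : ℕ} {p : Edge → I} {y0 y1 y2 : ℤ → I} (hp : Lay a (b+1) p y0 y1 y2)
    (h0 : ElP y0) : (percP p).real (BadZ (a+b+2)) = 0 := by
  obtain ⟨ε, hε, hf⟩ := h0
  refine fail_zeroP p (fun n : ℕ => zrow (a+b+2) (2 * (-(n:ℤ) - 1)))
    (fun i j hij => zrow_disj _ (by omega)) (ε^(a+b+2-1)) (pow_pos hε _) (hf.mono fun n hn => ?_)
  unfold zrow
  rw [Finset.prod_image (fun i _ j _ h => by
    have := (T23.edgeOf_inj h).1
    omega)]
  have ec : ε^(a+b+2-1) = ∏ _i ∈ range (a+b+2-1), ε := by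
    rw [Finset.prod_const, Finset.card_range]
  rw [ec]
  refine Finset.prod_le_prod (fun _ _ => hε.le) fun i hi => ?_
  rw [mem_range] at hi
  rw [hp.past _ _ (by omega) (by push_cast; omega) (by omega)]
  have e : 2 * (-(n:ℤ) - 1) / 2 = -(n:ℤ) - 1 := by omega
  rw [e]
  split_ifs
  · exact hn.1
  · linarith [hn.2]

/-- the vertex of the column `i` of the zigzag of the row `r` -/
def zz (r i : ℤ) : ℤ × ℤ :=
  if (i + r) % 2 = 1 then ((i + r + 1) / 2, (r + 1 - i) / 2) else ((i + r + 2) / 2, (r + 2 - i) / 2)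

theorem zz_col (r i : ℤ) : (zz r i).1 - (zz r i).2 = i := by
  unfold zz
  split_ifs <;> dsimp only <;> omega

theorem zz_height (r i : ℤ) : (zz r i).1 + (zz r i).2 ≤ r + 2 := by
  unfold zz
  split_ifs <;> dsimp only <;> omega

theorem zz_step (ω : Conf) (r i : ℤ) (h : ω (edgeOf (i+1) r) = true) :
    OpenAdj ω (zz r i) (zz r (i+1)) := by
  unfold edgeOf at h
  unfold zz
  by_cases hi : (i + r) % 2 = 1
  · rw [if_neg (by omega)] at h
    rw [if_pos hi, if_neg (by omega)]
    left
    refine ⟨Prod.ext (by dsimp only; omega) (by dsimp only; omega), ?_⟩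
    rw [← h]
    congr 1
    simp only [Prod.mk.injEq, and_true]
    constructor <;> omega
  · rw [if_pos (by omega)] at h
    rw [if_neg hi, if_pos (by omega)]
    right; right; right
    refine ⟨Prod.ext (by dsimp only; omega) (by dsimp only; omega), ?_⟩
    dsimp only
    refine Eq.trans ?_ h
    congr 2

theorem zz_path {a b : ℕ} {ω : Conf} {r : ℤ} (hr : r ≤ -2)
    (h : ∀ e ∈ zrow (a+b+2) r, ω e = true) (i : ℕ) (hi : i ≤ a + b + 1) :
    Relation.ReflTransGen (TipAdj a b (opn ω)) (zz r 1) (zz r (1 + i)) := by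
  induction i with
  | zero => simpa using Relation.ReflTransGen.refl
  | succ i ih =>
    refine (ih (by omega)).tail ?_
    have e : (1:ℤ) + ((i + 1 : ℕ) : ℤ) = (1 + (i:ℤ)) + 1 := by push_cast; ring
    rw [e]
    have c1 := zz_col r (1 + (i:ℤ))
    have c2 := zz_col r (1 + (i:ℤ) + 1)
    have h1 := zz_height r (1 + (i:ℤ))
    refine ⟨opn_of ω (zz_step ω r _ ?_), ⟨by omega, by omega⟩, ⟨by omega, by omega⟩, ?_⟩
    · apply h
      unfold zrow
      rw [Finset.mem_image]
      exact ⟨i, mem_range.2 (by omega), by congr 1; ring⟩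
    · rintro ⟨h3, _, _⟩
      omega

theorem hit_subZ {a b : ℕ} (ha : 1 ≤ a) : HitT a b ⊆ ArmF a b ∪ BadZ (a+b+2) := by
  rintro ω ⟨y, hy, hr⟩
  have hr' : Relation.ReflTransGen (TipAdj a b (opn ω)) (tip a) y :=
    PL.rtg_mono (fun p r h => ⟨opn_of ω h.1.1, h.1.2⟩) hr
  rcases hy with hy | hy
  · by_cases hB : ω ∈ BadZ (a+b+2)
    · exact Or.inr hB
    · left
      unfold BadZ at hB
      rw [Set.mem_ofPred_eq] at hB
      push Not at hB
      obtain ⟨j, hj⟩ := hB
      have hj' : ∀ e ∈ zrow (a+b+2) (2 * (-(j:ℤ) - 1)), ω e = true := fun e he => by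
        have := hj e he
        simpa using this
      have hp := zz_path (a := a) (b := b) (r := 2 * (-(j:ℤ) - 1)) (by omega) hj' (a+b+1) le_rfl
      have hw := wired (b := b) ha ω y.2 (-(j:ℤ) - 1)
      have ey : y = (y.2 + 1, y.2) := by
        ext
        · simp only; omega
        · rfl
      have ez : zz (2 * (-(j:ℤ) - 1)) 1 = (-(j:ℤ) - 1 + 1, -(j:ℤ) - 1) := by
        unfold zz
        rw [if_pos (by omega)]
        apply Prod.ext <;> dsimp only <;> omega
      rw [← ey, ← ez] at hw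
      refine ⟨_, ?_, (hr'.trans hw).trans hp⟩
      rw [zz_col]
      push_cast
      ring
  · exact Or.inl ⟨y, hy, hr'⟩

theorem hitT_P {m k : ℕ} {p : Edge → I} {y0 y1 y2 : ℤ → I}
    (hp : Lay (2*m+2) (2*k+1+1) p y0 y1 y2) (h0 : ElP y0) (h1 : ElF y1) (h2 : ElF y2) :
    (percP p).real (HitT (2*m+2) (2*k+1)) = hitFormula (2*m+2) (2*k+1) := by
  rw [← percP_armF hp h0 h1 h2]
  apply le_antisymm
  · calc (percP p).real (HitT (2*m+2) (2*k+1))
        ≤ (percP p).real (ArmF (2*m+2) (2*k+1) ∪ BadZ (2*m+2+(2*k+1)+2)) :=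
          measureReal_mono (hit_subZ (by omega))
      _ ≤ (percP p).real (ArmF (2*m+2) (2*k+1)) + (percP p).real (BadZ (2*m+2+(2*k+1)+2)) :=
          measureReal_union_le _ _
      _ = (percP p).real (ArmF (2*m+2) (2*k+1)) := by rw [badZ_zero hp h0, add_zero]
  · exact measureReal_mono (armF_sub _ _)

end Pool.Agent.H29.LE
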